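import Pool.Agent.Q33.RS4.Par

/-!
The weight grows faster than every exponential function, and the form of the result for algorithms
with at most exponentially many errors.
-/

set_option autoImplicit false

namespace Pool.Agent.Q33.RS4

open Set Topology Filter

theorem factorial_le_weight {d n : ℕ} (hd : 0 < d) (hn : 0 < n) (k : ℕ) :
    k.factorial ≤ weight d (n + d * k) := by
  rw [weight_add hd hn]
  have h1 : k.factorial ≤ ∏ j ∈ Finset.range k, (n + d * j) := by
    rw [← Finset.prod_range_add_one_eq_factorial]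
    refine Finset.prod_le_prod' (fun j _ => ?_)
    nlinarith
  calc k.factorial ≤ 1 * ∏ j ∈ Finset.range k, (n + d * j) := by rw [one_mul]; exact h1
    _ ≤ _ := Nat.mul_le_mul_right _ (weight_pos d n)

theorem growth {d : ℕ} (hd : 0 < d) (c : ℕ) : ∀ᶠ N in atTop, c ^ N ≤ weight d N := by
  obtain ⟨A, hA⟩ := eventually_atTop.1
    (Nat.eventually_mul_pow_lt_factorial_sub ((c + 1) ^ (2 * d)) ((c + 1) ^ d) 0)
  refine eventually_atTop.2 ⟨d * (A + 1), fun N hN => ?_⟩
  obtain ⟨k, hk⟩ : ∃ k, N / d = A + 1 + k := by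
    have : A + 1 ≤ N / d := (Nat.le_div_iff_mul_le hd).2 (by rw [mul_comm]; exact hN)
    exact ⟨_, (Nat.add_sub_cancel' this).symm⟩
  have h1 : N = (N % d + d) + d * (A + k) := by
    have h2 := Nat.div_add_mod N d
    rw [hk] at h2
    calc N = d * (A + 1 + k) + N % d := h2.symm
      _ = _ := by ring
  have h3 := factorial_le_weight hd (n := N % d + d) (by omega) (A + k)
  rw [← h1] at h3
  have h4 := hA (A + k) (by omega)
  have h5 : N % d < d := Nat.mod_lt _ hd
  calc c ^ N ≤ (c + 1) ^ N := Nat.pow_le_pow_left (by omega) _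
    _ ≤ (c + 1) ^ (2 * d + d * (A + k)) := Nat.pow_le_pow_right (by omega) (by omega)
    _ = (c + 1) ^ (2 * d) * ((c + 1) ^ d) ^ (A + k) := by
        rw [pow_add, pow_mul (c + 1) d (A + k)]
    _ ≤ (A + k - 0).factorial := h4.le
    _ = (A + k).factorial := by rw [Nat.sub_zero]
    _ ≤ _ := h3

/-- a computable bound for the rate if the number of errors is at most exponential -/
theorem rate {d : ℕ} (hd : 0 < d) (c N0 : ℕ) :
    ∃ h : List (List ℕ) → ℕ → ℕ, Computable₂ h ∧
      ∀ K q N, h K q ≤ N → N0 ≤ N ∧ ∀ e, e ≤ c ^ N → q * e ≤ weight d N := by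
  obtain ⟨A, hA⟩ := eventually_atTop.1 (growth hd (2 * c))
  refine ⟨fun _ q => max q (max A N0), ?_, fun K q N hN => ?_⟩
  · exact (Primrec.nat_max.comp Primrec.snd (Primrec.const (max A N0))).to_comp
  · have h1 : q ≤ N := le_trans (le_max_left _ _) hN
    have h2 : A ≤ N := le_trans (le_trans (le_max_left _ _) (le_max_right _ _)) hN
    have h3 : N0 ≤ N := le_trans (le_trans (le_max_right _ _) (le_max_right _ _)) hN
    refine ⟨h3, fun e he => ?_⟩
    calc q * e ≤ 2 ^ N * c ^ N :=
          Nat.mul_le_mul (le_trans h1 Nat.lt_two_pow_self.le) he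
      _ = (2 * c) ^ N := (mul_pow 2 c N).symm
      _ ≤ _ := hA N h2

end Pool.Agent.Q33.RS4
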