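import Mathlib

/-!
Unbounded search.
-/

set_option autoImplicit false

namespace Pool.Agent.Q33.RS4

/-- Unbounded search is computable if it always stops. -/
theorem find_comp {α : Type} [Primcodable α] {c : α → ℕ → Bool} (hc : Computable₂ c)
    (h : ∀ a, ∃ k, c a k = true) : Computable (fun a => Nat.find (h a)) := by
  have h1 : Partrec (fun a => Nat.rfind (fun k => (Part.some (c a k) : Part Bool))) :=
    Partrec.rfind hc.partrec₂
  refine (h1.of_eq (fun a => ?_))
  refine Part.eq_some_iff.2 ?_
  refine Nat.mem_rfind.2 ⟨?_, ?_⟩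
  · exact Part.mem_some_iff.2 (Nat.find_spec (h a)).symm
  · intro m hm
    refine Part.mem_some_iff.2 ?_
    have := Nat.find_min (h a) hm
    simpa using this

end Pool.Agent.Q33.RS4
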