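import Pool.Agent.Q33.RS4.Dim

/-!
Lists of facets, the subdivision of one facet, and all iterated subdivisions.
-/

set_option autoImplicit false

namespace Pool.Agent.Q33.RS4

open Set Topology

/-- the realization of the complex spanned by the lists in `K` -/
def Rz (K : List (List ℕ)) : Set (ℕ → ℝ) :=
  {x : ℕ → ℝ | ∃ σ ∈ K, (∀ i, 0 ≤ x i) ∧ (∀ i, i ∉ σ → x i = 0) ∧ ∑ i ∈ σ.toFinset, x i = 1}

/-- the set of the vertex sets of the lists in `K` -/
def cs (K : List (List ℕ)) : Finset (Finset ℕ) := (K.map List.toFinset).toFinset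

theorem mem_cs {K : List (List ℕ)} {t : Finset ℕ} : t ∈ cs K ↔ ∃ σ ∈ K, σ.toFinset = t := by
  simp [cs]

theorem Rz_eq (K : List (List ℕ)) : Rz K = ⋃ t ∈ cs K, Sx t := by
  ext x
  simp only [mem_iUnion, exists_prop, mem_cs]
  constructor
  · rintro ⟨σ, hσ, h0, h1, h2⟩
    exact ⟨σ.toFinset, ⟨σ, hσ, rfl⟩, h0, fun i hi => h1 i (by simpa using hi), h2⟩
  · rintro ⟨t, ⟨σ, hσ, rfl⟩, h0, h1, h2⟩
    exact ⟨σ, hσ, h0, fun i hi => h1 i (by simpa using hi), h2⟩

/-- `K` is a list of `N` different simplices with `d + 1` vertices each, all vertices less than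
`B`. -/
structure Good (d N B : ℕ) (K : List (List ℕ)) : Prop where
  len : K.length = N
  simp : ∀ σ ∈ K, σ.Nodup ∧ σ.length = d + 1 ∧ ∀ v ∈ σ, v < B
  nodup : (K.map List.toFinset).Nodup

/-- remove one element -/
def rem {α : Type} [DecidableEq α] (l : List α) (a : α) : List α := l.filter (fun b => b ≠ a)

/-- the new simplices -/
def subd (σ : List ℕ) (v : ℕ) : List (List ℕ) := σ.map (fun u => v :: rem σ u)

/-- the subdivision of the facet `σ` by the new vertex `v` -/
def sub (K : List (List ℕ)) (σ : List ℕ) (v : ℕ) : List (List ℕ) := rem K σ ++ subd σ v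

theorem toFinset_rem {α : Type} [DecidableEq α] (l : List α) (a : α) :
    (rem l a).toFinset = l.toFinset.erase a := by
  ext b
  simp [rem, and_comm]

theorem mem_rem {α : Type} [DecidableEq α] {l : List α} {a b : α} :
    b ∈ rem l a ↔ b ∈ l ∧ b ≠ a := by
  simp [rem]

theorem length_rem {α : Type} [DecidableEq α] {l : List α} (hl : l.Nodup) {a : α} (ha : a ∈ l) :
    (rem l a).length + 1 = l.length := by
  have h1 : (rem l a).Nodup := hl.filter _
  rw [← List.toFinset_card_of_nodup h1, ← List.toFinset_card_of_nodup hl, toFinset_rem,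
    Finset.card_erase_add_one (by simpa using ha)]

theorem Good.K_nodup {d N B : ℕ} {K : List (List ℕ)} (h : Good d N B K) : K.Nodup :=
  h.nodup.of_map _

theorem Good.inj {d N B : ℕ} {K : List (List ℕ)} (h : Good d N B K) {σ τ : List ℕ}
    (hσ : σ ∈ K) (hτ : τ ∈ K) (e : σ.toFinset = τ.toFinset) : σ = τ :=
  List.inj_on_of_nodup_map h.nodup hσ hτ e

theorem Good.card {d N B : ℕ} {K : List (List ℕ)} (h : Good d N B K) {σ : List ℕ}
    (hσ : σ ∈ K) : σ.toFinset.card = d + 1 := by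
  rw [List.toFinset_card_of_nodup (h.simp σ hσ).1, (h.simp σ hσ).2.1]

theorem cs_rem {d N B : ℕ} {K : List (List ℕ)} (h : Good d N B K) {σ : List ℕ} (hσ : σ ∈ K) :
    cs (rem K σ) = (cs K).erase σ.toFinset := by
  ext t
  rw [mem_cs, Finset.mem_erase, mem_cs]
  constructor
  · rintro ⟨τ, hτ, rfl⟩
    rw [mem_rem] at hτ
    exact ⟨fun e => hτ.2 (h.inj hτ.1 hσ e), τ, hτ.1, rfl⟩
  · rintro ⟨hne, τ, hτ, rfl⟩
    refine ⟨τ, mem_rem.2 ⟨hτ, ?_⟩, rfl⟩
    rintro rfl
    exact hne rfl

theorem cs_subd (σ : List ℕ) (v : ℕ) :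
    cs (subd σ v) = σ.toFinset.image (fun u => insert v (σ.toFinset.erase u)) := by
  ext t
  simp only [mem_cs, subd, List.mem_map, Finset.mem_image, List.mem_toFinset]
  constructor
  · rintro ⟨τ, ⟨u, hu, rfl⟩, rfl⟩
    refine ⟨u, hu, ?_⟩
    rw [List.toFinset_cons, toFinset_rem]
  · rintro ⟨u, hu, rfl⟩
    refine ⟨_, ⟨u, hu, rfl⟩, ?_⟩
    rw [List.toFinset_cons, toFinset_rem]

theorem cs_append (K L : List (List ℕ)) : cs (K ++ L) = cs K ∪ cs L := by
  ext t
  simp only [mem_cs, Finset.mem_union, List.mem_append]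
  constructor
  · rintro ⟨σ, h | h, e⟩
    · exact Or.inl ⟨σ, h, e⟩
    · exact Or.inr ⟨σ, h, e⟩
  · rintro (⟨σ, h, e⟩ | ⟨σ, h, e⟩)
    · exact ⟨σ, Or.inl h, e⟩
    · exact ⟨σ, Or.inr h, e⟩

theorem cs_sub {d N B : ℕ} {K : List (List ℕ)} (h : Good d N B K) {σ : List ℕ} (hσ : σ ∈ K)
    (v : ℕ) : cs (sub K σ v) = (cs K).erase σ.toFinset ∪
      σ.toFinset.image (fun u => insert v (σ.toFinset.erase u)) := by
  rw [sub, cs_append, cs_rem h hσ, cs_subd]

theorem not_mem_of_le {d N B : ℕ} {K : List (List ℕ)} (h : Good d N B K) {v : ℕ} (hv : B ≤ v)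
    {t : Finset ℕ} (ht : t ∈ cs K) : v ∉ t := by
  rw [mem_cs] at ht
  obtain ⟨σ, hσ, rfl⟩ := ht
  intro hm
  have := (h.simp σ hσ).2.2 v (by simpa using hm)
  omega

theorem good_sub {d N B : ℕ} (hd : 1 ≤ d) {K : List (List ℕ)} (h : Good d N B K) {σ : List ℕ}
    (hσ : σ ∈ K) {v : ℕ} (hv : B ≤ v) : Good d (N + d) (v + 1) (sub K σ v) := by
  obtain ⟨hn, hl, hb⟩ := h.simp σ hσ
  have hvs : v ∉ σ := fun hm => by have := hb v hm; omega
  have hrem : ∀ u ∈ σ, (v :: rem σ u).Nodup ∧ (v :: rem σ u).length = d + 1 ∧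
      ∀ w ∈ v :: rem σ u, w < v + 1 := by
    intro u hu
    refine ⟨?_, ?_, ?_⟩
    · rw [List.nodup_cons]
      exact ⟨fun hm => hvs (mem_rem.1 hm).1, hn.filter _⟩
    · rw [List.length_cons, length_rem hn hu, hl]
    · intro w hw
      rw [List.mem_cons] at hw
      rcases hw with rfl | hw
      · omega
      · have := hb w (mem_rem.1 hw).1
        omega
  refine ⟨?_, ?_, ?_⟩
  · have h1 := length_rem h.K_nodup hσ
    rw [sub, List.length_append, subd, List.length_map, hl]
    rw [h.len] at h1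
    omega
  · intro τ hτ
    rw [sub, List.mem_append] at hτ
    rcases hτ with hτ | hτ
    · obtain ⟨h1, h2, h3⟩ := h.simp τ (mem_rem.1 hτ).1
      exact ⟨h1, h2, fun w hw => by have := h3 w hw; omega⟩
    · rw [subd, List.mem_map] at hτ
      obtain ⟨u, hu, rfl⟩ := hτ
      exact hrem u hu
  · rw [sub, List.map_append]
    refine List.Nodup.append ?_ ?_ ?_
    · exact (List.Sublist.map _ List.filter_sublist).nodup h.nodup
    · rw [subd, List.map_map]
      refine (List.nodup_map_iff_inj_on hn).2 ?_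
      intro u hu w hw e
      simp only [Function.comp, List.toFinset_cons, toFinset_rem] at e
      by_contra hne
      have h1 : w ∈ insert v (σ.toFinset.erase u) := by
        rw [Finset.mem_insert, Finset.mem_erase]
        exact Or.inr ⟨fun e => hne e.symm, by simpa using hw⟩
      rw [e, Finset.mem_insert, Finset.mem_erase] at h1
      rcases h1 with h1 | h1
      · exact hvs (h1 ▸ hw)
      · exact h1.1 rfl
    · intro t h1 h2
      rw [List.mem_map] at h1 h2
      obtain ⟨τ, hτ, rfl⟩ := h1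
      obtain ⟨ρ, hρ, e⟩ := h2
      rw [subd, List.mem_map] at hρ
      obtain ⟨u, hu, rfl⟩ := hρ
      have h3 : v ∉ τ.toFinset := not_mem_of_le h hv (mem_cs.2 ⟨τ, (mem_rem.1 hτ).1, rfl⟩)
      rw [← e] at h3
      simp at h3

theorem homeo_sub {d N B : ℕ} {K : List (List ℕ)} (h : Good d N B K) {σ : List ℕ}
    (hσ : σ ∈ K) {v : ℕ} (hv : B ≤ v) : Nonempty (Rz (sub K σ v) ≃ₜ Rz K) := by
  have hm : σ.toFinset ∈ cs K := mem_cs.2 ⟨σ, hσ, rfl⟩
  have h1 := subdiv_homeo ((cs K).erase σ.toFinset) σ.toFinset v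
    (by
      rw [← Finset.card_pos, h.card hσ]
      omega)
    (not_mem_of_le h hv hm)
    (fun t ht => not_mem_of_le h hv (Finset.mem_of_mem_erase ht))
    (by
      intro t ht hsub
      rw [Finset.mem_erase, mem_cs] at ht
      obtain ⟨hne, τ, hτ, rfl⟩ := ht
      refine hne (Finset.eq_of_subset_of_card_le hsub ?_).symm
      rw [h.card hτ, h.card hσ])
  have e1 : (⋃ t ∈ (cs K).erase σ.toFinset, Sx t) ∪
      (⋃ u ∈ σ.toFinset, Sx (insert v (σ.toFinset.erase u))) = Rz (sub K σ v) := by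
    rw [Rz_eq, cs_sub h hσ]
    ext x
    simp only [mem_union, mem_iUnion, exists_prop, Finset.mem_union, Finset.mem_image]
    constructor
    · rintro (⟨t, ht, hx⟩ | ⟨u, hu, hx⟩)
      · exact ⟨t, Or.inl ht, hx⟩
      · exact ⟨_, Or.inr ⟨u, hu, rfl⟩, hx⟩
    · rintro ⟨t, ht | ⟨u, hu, rfl⟩, hx⟩
      · exact Or.inl ⟨t, ht, hx⟩
      · exact Or.inr ⟨u, hu, hx⟩
  have e2 : (⋃ t ∈ (cs K).erase σ.toFinset, Sx t) ∪ Sx σ.toFinset = Rz K := by
    rw [Rz_eq]
    ext x
    simp only [mem_union, mem_iUnion, exists_prop, Finset.mem_erase]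
    constructor
    · rintro (⟨t, ht, hx⟩ | hx)
      · exact ⟨t, ht.2, hx⟩
      · exact ⟨_, hm, hx⟩
    · rintro ⟨t, ht, hx⟩
      by_cases e : t = σ.toFinset
      · exact Or.inr (e ▸ hx)
      · exact Or.inl ⟨t, ⟨e, ht⟩, hx⟩
  rw [e1, e2] at h1
  exact h1

/-- The complex and the subdivided facet can be recovered. -/
theorem sub_inj {d N B : ℕ} (hd : 1 ≤ d) {K L : List (List ℕ)} (hK : Good d N B K)
    (hL : Good d N B L) {σ τ : List ℕ} (hσ : σ ∈ K) (hτ : τ ∈ L) {v : ℕ} (hv : B ≤ v)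
    (e : cs (sub K σ v) = cs (sub L τ v)) : cs K = cs L ∧ σ.toFinset = τ.toFinset := by
  -- the facets which do not contain `v`
  have key1 : ∀ (K : List (List ℕ)) (_ : Good d N B K) (σ : List ℕ) (_ : σ ∈ K),
      (cs (sub K σ v)).filter (fun t => v ∉ t) = (cs K).erase σ.toFinset := by
    intro K hK σ hσ
    rw [cs_sub hK hσ]
    ext t
    simp only [Finset.mem_filter, Finset.mem_union, Finset.mem_image]
    constructor
    · rintro ⟨h1 | ⟨u, hu, rfl⟩, h2⟩
      · exact h1
      · exact absurd (Finset.mem_insert_self _ _) h2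
    · intro h1
      exact ⟨Or.inl h1, not_mem_of_le hK hv (Finset.mem_of_mem_erase h1)⟩
  -- the union of the facets which contain `v`
  have key2 : ∀ (K : List (List ℕ)) (_ : Good d N B K) (σ : List ℕ) (_ : σ ∈ K) (w : ℕ),
      w ∈ σ.toFinset ↔ w ≠ v ∧ ∃ t ∈ cs (sub K σ v), v ∈ t ∧ w ∈ t := by
    intro K hK σ hσ w
    have hvs : v ∉ σ.toFinset := not_mem_of_le hK hv (mem_cs.2 ⟨σ, hσ, rfl⟩)
    rw [cs_sub hK hσ]
    constructor
    · intro hw
      refine ⟨fun e => hvs (e ▸ hw), ?_⟩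
      have hc : 1 < σ.toFinset.card := by
        rw [hK.card hσ]
        omega
      obtain ⟨u, hu, huw⟩ := Finset.exists_mem_ne hc w
      refine ⟨insert v (σ.toFinset.erase u), ?_, Finset.mem_insert_self _ _, ?_⟩
      · exact Finset.mem_union_right _ (Finset.mem_image.2 ⟨u, hu, rfl⟩)
      · exact Finset.mem_insert_of_mem (Finset.mem_erase.2 ⟨fun e => huw e.symm, hw⟩)
    · rintro ⟨hwv, t, ht, hvt, hwt⟩
      rw [Finset.mem_union, Finset.mem_image] at ht
      rcases ht with ht | ⟨u, hu, rfl⟩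
      · exact absurd hvt (not_mem_of_le hK hv (Finset.mem_of_mem_erase ht))
      · rw [Finset.mem_insert] at hwt
        rcases hwt with rfl | hwt
        · exact absurd rfl hwv
        · exact Finset.mem_of_mem_erase hwt
  have h1 : σ.toFinset = τ.toFinset := by
    ext w
    rw [key2 K hK σ hσ w, key2 L hL τ hτ w, e]
  refine ⟨?_, h1⟩
  have h2 := key1 K hK σ hσ
  rw [e, key1 L hL τ hτ, h1] at h2
  have hm : σ.toFinset ∈ cs K := mem_cs.2 ⟨σ, hσ, rfl⟩
  have hm' : τ.toFinset ∈ cs L := mem_cs.2 ⟨τ, hτ, rfl⟩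
  rw [← Finset.insert_erase hm', h2, ← h1, Finset.insert_erase hm]

/-- All `k`-fold subdivisions of `K`, the new vertices being `M`, `M + 1`, ... -/
def hist (K : List (List ℕ)) (M : ℕ) : ℕ → List (List (List ℕ))
  | 0 => [K]
  | (k + 1) => (hist K M k).flatMap (fun L => L.map (fun σ => sub L σ (M + k)))

theorem hist_spec {d N M : ℕ} (hd : 1 ≤ d) {K : List (List ℕ)} (hK : Good d N M K) (k : ℕ) :
    (∀ L ∈ hist K M k, Good d (N + d * k) (M + k) L ∧ Nonempty (Rz L ≃ₜ Rz K)) ∧
    ((hist K M k).map cs).Nodup ∧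
    (hist K M k).length = ∏ j ∈ Finset.range k, (N + d * j) := by
  induction k with
  | zero =>
    refine ⟨?_, ?_, ?_⟩
    · intro L hL
      rw [hist, List.mem_singleton] at hL
      subst hL
      exact ⟨by simpa using hK, ⟨Homeomorph.refl _⟩⟩
    · simp [hist]
    · simp [hist]
  | succ k ih =>
    obtain ⟨ih1, ih2, ih3⟩ := ih
    refine ⟨?_, ?_, ?_⟩
    · intro L hL
      rw [hist, List.mem_flatMap] at hL
      obtain ⟨L', hL', h⟩ := hL
      rw [List.mem_map] at h
      obtain ⟨σ, hσ, rfl⟩ := h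
      obtain ⟨hg, ⟨e⟩⟩ := ih1 L' hL'
      have h2 := good_sub hd hg hσ (le_refl (M + k))
      refine ⟨?_, ?_⟩
      · have e1 : N + d * (k + 1) = N + d * k + d := by ring
        rw [e1, ← add_assoc M k 1]
        exact h2
      · obtain ⟨e'⟩ := homeo_sub hg hσ (le_refl (M + k))
        exact ⟨e'.trans e⟩
    · rw [hist, List.map_flatMap, List.nodup_flatMap]
      constructor
      · intro L hL
        have hg := (ih1 L hL).1
        rw [List.map_map]
        refine (List.nodup_map_iff_inj_on hg.K_nodup).2 ?_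
        intro σ hσ τ hτ e
        exact hg.inj hσ hτ (sub_inj hd hg hg hσ hτ (le_refl _) e).2
      · have hp : (hist K M k).Pairwise (fun L L' => cs L ≠ cs L') := by
          have := List.pairwise_map.1 ih2
          exact this
        refine List.Pairwise.imp_of_mem ?_ hp
        intro L L' hL hL' hne
        simp only [Function.onFun]
        rw [List.disjoint_left]
        intro C h1 h2
        rw [List.map_map, List.mem_map] at h1 h2
        obtain ⟨σ, hσ, e1⟩ := h1
        obtain ⟨τ, hτ, e2⟩ := h2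
        exact hne (sub_inj hd (ih1 L hL).1 (ih1 L' hL').1 hσ hτ (le_refl _)
          (e1.trans e2.symm)).1
    · rw [hist, List.length_flatMap, Finset.prod_range_succ, ← ih3]
      have h1 : (hist K M k).map (fun L => (L.map (fun σ => sub L σ (M + k))).length) =
          (hist K M k).map (fun _ => N + d * k) := by
        refine List.map_congr_left (fun L hL => ?_)
        rw [List.length_map]
        exact (ih1 L hL).1.len
      rw [h1, List.map_const', List.sum_replicate, smul_eq_mul]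

end Pool.Agent.Q33.RS4
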