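import Pool.Agent.Q33.RS4.Norm

/-!
The operations on lists of simplices are computable.
-/

set_option autoImplicit false

namespace Pool.Agent.Q33.RS4

open Primrec

theorem mem_prim : PrimrecRel (fun (a : ℕ) (l : List ℕ) => a ∈ l) := by
  have h := (PrimrecRel.exists_mem_list (R := fun x a : ℕ => x = a) Primrec.eq)
  exact (h.comp Primrec.snd Primrec.fst).of_eq (fun p => by simp)

theorem subset_prim : PrimrecRel (fun (σ τ : List ℕ) => ∀ a ∈ σ, a ∈ τ) :=
  PrimrecRel.forall_mem_list mem_prim

theorem dedup_prim : Primrec (List.dedup : List ℕ → List ℕ) := by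
  have h : Primrec₂ (fun (_ : List ℕ) (p : ℕ × List ℕ) => if p.1 ∈ p.2 then p.2 else p.1 :: p.2) :=
    Primrec.ite (mem_prim.comp (fst.comp snd) (snd.comp snd)) (snd.comp snd)
      (list_cons.comp (fst.comp snd) (snd.comp snd))
  refine (list_foldr Primrec.id (const []) h).of_eq (fun l => ?_)
  induction l with
  | nil => rfl
  | cons a l ih =>
    simp only [id, List.foldr_cons] at ih ⊢
    rw [ih]
    by_cases ha : a ∈ l
    · rw [List.dedup_cons_of_mem ha, if_pos (List.mem_dedup.2 ha)]
    · rw [List.dedup_cons_of_notMem ha, if_neg (fun h => ha (List.mem_dedup.1 h))]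

theorem maxl_prim : Primrec maxl := by
  have h1 : PrimrecRel (fun (τ σ : List ℕ) => (∀ a ∈ σ, a ∈ τ) → ∀ a ∈ τ, a ∈ σ) := by
    have h2 := subset_prim.comp (Primrec.snd (α := List ℕ) (β := List ℕ)) Primrec.fst
    have h3 := subset_prim.comp (Primrec.fst (α := List ℕ) (β := List ℕ)) Primrec.snd
    exact (h2.not.or h3).of_eq (fun p => by tauto)
  have h4 : PrimrecRel (fun (K : List (List ℕ)) (σ : List ℕ) =>
      ∀ τ ∈ K, (∀ a ∈ σ, a ∈ τ) → ∀ a ∈ τ, a ∈ σ) := PrimrecRel.forall_mem_list h1
  have h5 : PrimrecRel (fun (σ : List ℕ) (K : List (List ℕ)) => σ ≠ [] ∧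
      ∀ τ ∈ K, (∀ a ∈ σ, a ∈ τ) → ∀ a ∈ τ, a ∈ σ) := by
    have h6 := (Primrec.eq.comp (Primrec.fst (α := List ℕ) (β := List (List ℕ)))
      (const [])).not
    exact h6.and (h4.comp Primrec.snd Primrec.fst)
  have h7 := (PrimrecRel.listFilter h5).comp (Primrec.id (α := List (List ℕ))) Primrec.id
  refine h7.of_eq (fun K => ?_)
  simp only [id, maxl]

theorem pick_prim : Primrec pick := by
  have h1 : PrimrecRel (fun (τ σ : List ℕ) => ∀ a ∈ σ, a ∈ τ) :=
    subset_prim.comp (Primrec.snd (α := List ℕ) (β := List ℕ)) Primrec.fst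
  have h2 : PrimrecRel (fun (acc : List (List ℕ)) (σ : List ℕ) => ∃ τ ∈ acc, ∀ a ∈ σ, a ∈ τ) :=
    PrimrecRel.exists_mem_list h1
  have h : Primrec₂ (fun (_ : List (List ℕ)) (p : List ℕ × List (List ℕ)) =>
      if (∃ τ ∈ p.2, ∀ a ∈ p.1, a ∈ τ) then p.2 else p.1 :: p.2) :=
    Primrec.ite (h2.comp (snd.comp snd) (fst.comp snd)) (snd.comp snd)
      (list_cons.comp (fst.comp snd) (snd.comp snd))
  exact (list_foldr Primrec.id (const []) h).of_eq (fun l => rfl)

theorem nrm_prim : Primrec nrm :=
  pick_prim.comp (maxl_prim.comp (list_map Primrec.id (dedup_prim.comp snd).to₂))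

theorem bound_prim : Primrec bound := by
  have h : Primrec₂ (fun (_ : List (List ℕ)) (p : ℕ × ℕ) => max (p.1 + 1) p.2) :=
    nat_max.comp (succ.comp (fst.comp snd)) (snd.comp snd)
  exact (list_foldr list_flatten (const 0) h).of_eq (fun l => rfl)

theorem rem_prim {α : Type} [Primcodable α] [DecidableEq α] :
    Primrec₂ (rem : List α → α → List α) := by
  have h1 : PrimrecRel (fun (b a : α) => b ≠ a) := Primrec.eq.not
  exact (PrimrecRel.listFilter h1).of_eq (fun l a => by simp only [rem])

theorem subd_prim : Primrec₂ subd := by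
  have h : Primrec₂ (fun (p : List ℕ × ℕ) (u : ℕ) => p.2 :: rem p.1 u) :=
    list_cons.comp (snd.comp fst) (rem_prim.comp (fst.comp fst) snd)
  exact (list_map Primrec.fst h).of_eq (fun p => rfl)

theorem sub_prim : Primrec (fun p : List (List ℕ) × List ℕ × ℕ => sub p.1 p.2.1 p.2.2) :=
  list_append.comp (rem_prim.comp fst (fst.comp snd))
    (subd_prim.comp (fst.comp snd) (snd.comp snd))

theorem hist_prim : Primrec (fun p : (List (List ℕ) × ℕ) × ℕ => hist p.1.1 p.1.2 p.2) := by
  have h : Primrec₂ (fun (p : (List (List ℕ) × ℕ) × ℕ) (q : ℕ × List (List (List ℕ))) =>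
      q.2.flatMap (fun L => L.map (fun σ => sub L σ (p.1.2 + q.1)))) := by
    refine list_flatMap (snd.comp snd) ?_
    refine list_map snd ?_
    exact sub_prim.comp (Primrec.pair (snd.comp fst) (Primrec.pair snd
      (nat_add.comp (snd.comp (fst.comp (fst.comp (fst.comp fst))))
        (fst.comp (snd.comp (fst.comp fst))))))
  refine (nat_rec' snd (list_cons.comp (fst.comp fst) (const [])) h).of_eq (fun p => ?_)
  obtain ⟨⟨K, M⟩, k⟩ := p
  induction k with
  | zero => rfl
  | succ k ih =>
    simp only at ih ⊢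
    rw [ih]
    rfl

theorem factorial_prim : Primrec (fun n : ℕ => n.factorial) := by
  have h : Primrec₂ (fun (n : ℕ) (IH : ℕ) => (n + 1) * IH) :=
    nat_mul.comp (succ.comp fst) snd
  refine (nat_rec₁ 1 h).of_eq (fun n => ?_)
  induction n with
  | zero => rfl
  | succ n ih =>
    simp only at ih ⊢
    rw [ih, Nat.factorial_succ]

/-- the number of the `i < j` with `f (H i) = true` -/
def cnt (f : List (List ℕ) → Bool) (H : List (List (List ℕ))) (j : ℕ) : ℕ :=
  Nat.rec 0 (fun i IH => IH + (if f (H.getD i []) = true then 1 else 0)) j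

theorem cnt_eq (f : List (List ℕ) → Bool) (H : List (List (List ℕ))) :
    ∀ j ≤ H.length, cnt f H j = ((H.take j).filter (fun L => f L = true)).length := by
  intro j
  induction j with
  | zero =>
    intro _
    simp [cnt]
  | succ j ih =>
    intro hj
    have h1 : cnt f H (j + 1) = cnt f H j + (if f (H.getD j []) = true then 1 else 0) := rfl
    rw [h1, ih (by omega), List.take_succ_eq_append_getElem (by omega), List.filter_append,
      List.length_append, List.getD_eq_getElem _ _ (by omega)]
    congr 1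
    by_cases h : f (H[j]'(by omega)) = true
    · simp [h]
    · simp [h]

theorem cnt_length (f : List (List ℕ) → Bool) (H : List (List (List ℕ))) :
    cnt f H H.length = (H.filter (fun L => f L = true)).length := by
  rw [cnt_eq f H H.length le_rfl, List.take_length]

theorem cnt_comp {f : List (List ℕ) → Bool} (hf : Computable f) :
    Computable (fun H : List (List (List ℕ)) => cnt f H H.length) := by
  have h : Computable₂ (fun (H : List (List (List ℕ))) (p : ℕ × ℕ) =>
      p.2 + (bif f (H.getD p.1 []) then 1 else 0)) := by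
    have h1 : Computable (fun q : List (List (List ℕ)) × ℕ × ℕ => f (q.1.getD q.2.1 [])) :=
      hf.comp ((list_getD ([] : List (List ℕ))).comp fst (fst.comp snd)).to_comp
    exact (nat_add.to_comp).comp ((snd.comp snd).to_comp)
      (Computable.cond h1 (Computable.const 1) (Computable.const 0))
  refine (Computable.nat_rec (Primrec.list_length.to_comp) (Computable.const 0) h).of_eq
    (fun H => ?_)
  unfold cnt
  congr 1
  funext i IH
  cases f (H.getD i []) <;> rfl

end Pool.Agent.Q33.RS4
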