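import Pool.Agent.Q33.RS4.Geo
import Pool.Agent.W964.LieExp.InvDim

/-!
The facets of a complex whose realization is a topological manifold of dimension `d` have
`d + 1` vertices.
-/

set_option autoImplicit false

namespace Pool.Agent.Q33.RS4

open Set Topology Module

theorem Sx_ext {s : Finset ℕ} {u : ℕ} (hu : u ∈ s) {x y : ℕ → ℝ} (hx : x ∈ Sx s) (hy : y ∈ Sx s)
    (h : ∀ i ∈ s.erase u, x i = y i) : x = y := by
  funext i
  by_cases hi : i ∈ s
  · by_cases hiu : i = u
    · subst hiu
      have h1 := hx.2.2
      have h2 := hy.2.2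
      rw [← Finset.add_sum_erase s _ hi] at h1 h2
      rw [Finset.sum_congr rfl h] at h1
      linarith
    · exact h i (Finset.mem_erase.2 ⟨hiu, hi⟩)
  · rw [hx.2.1 i hi, hy.2.1 i hi]

/-- Invariance of dimension: the maximal simplices of a triangulated manifold of dimension `d` have
`d + 1` vertices. -/
theorem card_of_maximal (F : Finset (Finset ℕ)) (s : Finset ℕ) (hsF : s ∈ F) (hs : s.Nonempty)
    (hmax : ∀ t ∈ F, s ⊆ t → t = s) (d : ℕ)
    (hX : Nonempty (ChartedSpace (EuclideanSpace ℝ (Fin d)) (⋃ t ∈ F, Sx t : Set (ℕ → ℝ)))) :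
    s.card = d + 1 := by
  obtain ⟨cs⟩ := hX
  set X : Set (ℕ → ℝ) := ⋃ t ∈ F, Sx t with hXdef
  obtain ⟨u, hu⟩ := hs
  have hcard : 0 < s.card := Finset.card_pos.2 ⟨u, hu⟩
  have hcardR : (0 : ℝ) < s.card := by exact_mod_cast hcard
  have hsub : Sx s ⊆ X := by
    intro x hx
    simp only [hXdef, mem_iUnion, exists_prop]
    exact ⟨s, hsF, hx⟩
  set W : Set X := {x | ∀ i ∈ s, 0 < x.1 i} with hW
  have hWo : IsOpen W := by
    have : W = ⋂ i ∈ s, {x : X | 0 < x.1 i} := by
      ext x
      simp [hW]
    rw [this]
    refine isOpen_biInter_finset (fun i _ => ?_)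
    exact isOpen_lt continuous_const ((continuous_apply i).comp continuous_subtype_val)
  have hWS : ∀ x ∈ W, x.1 ∈ Sx s := by
    intro x hx
    have h1 := x.2
    simp only [hXdef, mem_iUnion, exists_prop] at h1
    obtain ⟨t, ht, hxt⟩ := h1
    have h2 : s ⊆ t := by
      intro i hi
      by_contra hit
      have := hx i hi
      rw [hxt.2.1 i hit] at this
      exact lt_irrefl _ this
    rw [hmax t ht h2] at hxt
    exact hxt
  let b : ℕ → ℝ := fun i => if i ∈ s then 1 / s.card else 0
  have hb : b ∈ Sx s := by
    refine ⟨?_, ?_, ?_⟩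
    · intro i
      dsimp only [b]
      split_ifs
      · positivity
      · exact le_rfl
    · intro i hi
      dsimp only [b]
      rw [if_neg hi]
    · have : ∑ i ∈ s, b i = ∑ i ∈ s, (1 / s.card : ℝ) :=
        Finset.sum_congr rfl (fun i hi => by dsimp only [b]; rw [if_pos hi])
      rw [this, Finset.sum_const, nsmul_eq_mul]
      field_simp
  let x0 : X := ⟨b, hsub hb⟩
  have hx0 : x0 ∈ W := by
    intro i hi
    show 0 < b i
    dsimp only [b]
    rw [if_pos hi]
    positivity
  let e := cs.chartAt x0
  have hx0e : x0 ∈ e.source := cs.mem_chart_source x0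
  have hfin : finrank ℝ ({i // i ∈ s.erase u} → ℝ) = s.card - 1 := by
    rw [finrank_fintype_fun_eq_card, Fintype.card_coe, Finset.card_erase_of_mem hu]
  have hfin2 : finrank ℝ (EuclideanSpace ℝ (Fin d)) = d := by simp
  -- first inequality
  have h1 : d ≤ s.card - 1 := by
    rw [← hfin, ← hfin2]
    refine Pool.Agent.W964.LieExp.finrank_le_of_injOn (e.target ∩ e.symm ⁻¹' W)
      (e.isOpen_inter_preimage_symm hWo) (e x0) ⟨e.map_source hx0e, ?_⟩
      (fun z => fun i : {i // i ∈ s.erase u} => (e.symm z).1 i.1) ?_ ?_
    · show e.symm (e x0) ∈ W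
      rw [e.left_inv hx0e]
      exact hx0
    · have hc : ContinuousOn e.symm (e.target ∩ e.symm ⁻¹' W) :=
        e.continuousOn_symm.mono inter_subset_left
      refine continuousOn_pi.2 (fun i => ?_)
      have h2 : Continuous (fun x : X => x.1 i.1) :=
        (continuous_apply i.1).comp continuous_subtype_val
      exact h2.comp_continuousOn hc
    · intro z hz z' hz' h
      have e1 : (e.symm z).1 = (e.symm z').1 := by
        refine Sx_ext hu (hWS _ hz.2) (hWS _ hz'.2) (fun i hi => ?_)
        exact congrFun h ⟨i, hi⟩
      have e2 : e.symm z = e.symm z' := Subtype.ext e1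
      have e3 := congrArg e e2
      rwa [e.right_inv hz.1, e.right_inv hz'.1] at e3
  -- second inequality
  have h2 : s.card - 1 ≤ d := by
    rw [← hfin, ← hfin2]
    let p : ({i // i ∈ s.erase u} → ℝ) → (ℕ → ℝ) := fun z i =>
      if h : i ∈ s.erase u then z ⟨i, h⟩ else if i = u then 1 - ∑ j, z j else 0
    have hpc : Continuous p := by
      refine continuous_pi (fun i => ?_)
      dsimp only [p]
      by_cases h : i ∈ s.erase u
      · simp only [h, dif_pos]
        exact continuous_apply _
      · simp only [h, dif_neg, not_false_eq_true]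
        by_cases hiu : i = u
        · simp only [hiu, if_true]
          exact continuous_const.sub (continuous_finsetSum _ (fun j _ => continuous_apply j))
        · simp only [hiu, if_false]
          exact continuous_const
    let U : Set ({i // i ∈ s.erase u} → ℝ) := {z | (∀ i, 0 < z i) ∧ ∑ j, z j < 1}
    have hUo : IsOpen U := by
      have h3 : IsOpen {z : {i // i ∈ s.erase u} → ℝ | ∀ i, 0 < z i} := by
        have : {z : {i // i ∈ s.erase u} → ℝ | ∀ i, 0 < z i} = ⋂ i, {z | 0 < z i} := by
          ext z
          simp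
        rw [this]
        exact isOpen_iInter_of_finite (fun i => isOpen_lt continuous_const (continuous_apply i))
      exact h3.inter (isOpen_lt (continuous_finsetSum _ (fun j _ => continuous_apply j))
        continuous_const)
    have hps : ∀ z ∈ U, p z ∈ Sx s := by
      intro z hz
      have hpu : p z u = 1 - ∑ j, z j := by
        dsimp only [p]
        rw [dif_neg (Finset.notMem_erase u s), if_pos rfl]
      refine ⟨?_, ?_, ?_⟩
      · intro i
        dsimp only [p]
        split_ifs with h3 h4
        · exact (hz.1 _).le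
        · linarith [hz.2]
        · exact le_rfl
      · intro i hi
        dsimp only [p]
        have hiu : i ≠ u := by
          rintro rfl
          exact hi hu
        rw [dif_neg (fun h => hi (Finset.mem_of_mem_erase h)), if_neg hiu]
      · rw [← Finset.add_sum_erase s _ hu, hpu]
        have : ∑ i ∈ s.erase u, p z i = ∑ j, z j := by
          rw [← Finset.sum_coe_sort (s.erase u) (fun i => p z i)]
          refine Finset.sum_congr rfl (fun j _ => ?_)
          dsimp only [p]
          rw [dif_pos j.2]
        rw [this]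
        ring
    classical
    let q : ({i // i ∈ s.erase u} → ℝ) → X := fun z => if h : p z ∈ X then ⟨p z, h⟩ else x0
    have hqU : ∀ z ∈ U, (q z).1 = p z := by
      intro z hz
      dsimp only [q]
      rw [dif_pos (hsub (hps z hz))]
    have hqc : ContinuousOn q U := by
      rw [continuousOn_iff_continuous_domRestrict]
      rw [Topology.IsInducing.subtypeVal.continuous_iff]
      have : (Subtype.val ∘ U.domRestrict q) = fun z : U => p z.1 := by
        funext z
        exact hqU z.1 z.2
      rw [this]
      exact hpc.comp continuous_subtype_val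
    let z0 : {i // i ∈ s.erase u} → ℝ := fun i => b i.1
    have hz0 : z0 ∈ U := by
      refine ⟨fun i => ?_, ?_⟩
      · have := hx0 i.1 (Finset.mem_of_mem_erase i.2)
        exact this
      · have h3 : ∑ j, z0 j = ∑ i ∈ s.erase u, b i :=
          Finset.sum_coe_sort (s.erase u) (fun i => b i)
        have h4 := hb.2.2
        rw [← Finset.add_sum_erase s _ hu] at h4
        have h5 : 0 < b u := hx0 u hu
        rw [h3]
        linarith
    have hq0 : q z0 = x0 := by
      apply Subtype.ext
      rw [hqU z0 hz0]
      refine Sx_ext hu (hps z0 hz0) hb (fun i hi => ?_)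
      dsimp only [p, z0]
      rw [dif_pos hi]
    refine Pool.Agent.W964.LieExp.finrank_le_of_injOn (U ∩ q ⁻¹' e.source)
      (hqc.isOpen_inter_preimage hUo e.open_source) z0 ⟨hz0, ?_⟩ (fun z => e (q z)) ?_ ?_
    · show q z0 ∈ e.source
      rw [hq0]
      exact hx0e
    · refine e.continuousOn.comp (hqc.mono inter_subset_left) ?_
      intro z hz
      exact hz.2
    · intro z hz z' hz' h
      have e1 : q z = q z' := e.injOn hz.2 hz'.2 h
      have e2 : p z = p z' := by
        rw [← hqU z hz.1, ← hqU z' hz'.1, e1]
      funext i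
      have e3 := congrFun e2 i.1
      dsimp only [p] at e3
      rw [dif_pos i.2, dif_pos i.2] at e3
      exact e3
  omega

end Pool.Agent.Q33.RS4
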