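import Mathlib

/-!
The realization of a finite simplicial complex, and the subdivision of one facet by a new vertex.
-/

set_option autoImplicit false

namespace Pool.Agent.Q33.RS4

open Set Topology

/-- the closed simplex spanned by the finite set `s` -/
def Sx (s : Finset ℕ) : Set (ℕ → ℝ) :=
  {x | (∀ i, 0 ≤ x i) ∧ (∀ i, i ∉ s → x i = 0) ∧ ∑ i ∈ s, x i = 1}

theorem le_one_of_mem {s : Finset ℕ} {x : ℕ → ℝ} (h : x ∈ Sx s) (i : ℕ) : x i ≤ 1 := by
  by_cases hi : i ∈ s
  · have := Finset.single_le_sum (f := x) (fun j _ => h.1 j) hi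
    rw [h.2.2] at this
    exact this
  · rw [h.2.1 i hi]
    norm_num

theorem isCompact_Sx (s : Finset ℕ) : IsCompact (Sx s) := by
  have hc : IsCompact (Set.pi Set.univ (fun _ : ℕ => Set.Icc (0 : ℝ) 1)) :=
    isCompact_univ_pi (fun _ => isCompact_Icc)
  refine hc.of_isClosed_subset ?_ ?_
  · have h1 : IsClosed {x : ℕ → ℝ | ∀ i, 0 ≤ x i} := by
      rw [Set.ofPred_forall]
      exact isClosed_iInter (fun i => isClosed_le continuous_const (continuous_apply i))
    have h2 : IsClosed {x : ℕ → ℝ | ∀ i, i ∉ s → x i = 0} := by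
      rw [Set.ofPred_forall]
      refine isClosed_iInter (fun i => ?_)
      by_cases hi : i ∈ s
      · simp [hi]
      · simp only [hi, not_false_eq_true, forall_const]
        exact isClosed_eq (continuous_apply i) continuous_const
    have h3 : IsClosed {x : ℕ → ℝ | ∑ i ∈ s, x i = 1} :=
      isClosed_eq (continuous_finsetSum s (fun i _ => continuous_apply i)) continuous_const
    exact h1.inter (h2.inter h3)
  · intro x hx i _
    exact ⟨hx.1 i, le_one_of_mem hx i⟩

/-- the linear map which contracts the new vertex `v` to the barycentre of `s` -/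
noncomputable def gm (s : Finset ℕ) (v : ℕ) (y : ℕ → ℝ) : ℕ → ℝ :=
  fun i => if i = v then 0 else y i + if i ∈ s then y v / s.card else 0

theorem continuous_gm (s : Finset ℕ) (v : ℕ) : Continuous (gm s v) := by
  refine continuous_pi (fun i => ?_)
  unfold gm
  by_cases hi : i = v
  · simp only [hi, if_true]
    exact continuous_const
  · simp only [hi, if_false]
    by_cases hs : i ∈ s
    · simp only [hs, if_true]
      exact (continuous_apply i).add ((continuous_apply v).div_const _)
    · simp only [hs, if_false]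
      exact (continuous_apply i).add continuous_const

theorem gm_eq_self {s : Finset ℕ} {v : ℕ} {y : ℕ → ℝ} (h : y v = 0) : gm s v y = y := by
  funext i
  unfold gm
  by_cases hi : i = v
  · simp [hi, h]
  · simp [hi, h]

theorem gm_apply_mem {s : Finset ℕ} {v : ℕ} {y : ℕ → ℝ} {i : ℕ} (hv : v ∉ s) (hi : i ∈ s) :
    gm s v y i = y i + y v / s.card := by
  unfold gm
  have : i ≠ v := fun e => hv (e ▸ hi)
  simp [this, hi]

theorem gm_apply_not {s : Finset ℕ} {v : ℕ} {y : ℕ → ℝ} {i : ℕ} (hi : i ∉ s) (hiv : i ≠ v) :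
    gm s v y i = y i := by
  unfold gm
  simp [hiv, hi]

theorem gm_maps {s : Finset ℕ} {v u : ℕ} (hv : v ∉ s) (hu : u ∈ s) {y : ℕ → ℝ}
    (hy : y ∈ Sx (insert v (s.erase u))) : gm s v y ∈ Sx s := by
  obtain ⟨h0, h1, h2⟩ := hy
  have hvu : v ∉ s.erase u := fun h => hv (Finset.mem_of_mem_erase h)
  rw [Finset.sum_insert hvu] at h2
  have huv : u ≠ v := fun e => hv (e ▸ hu)
  have hyu : y u = 0 := h1 u (by simp [huv])
  have hcard : (0 : ℝ) < s.card := by
    have : 0 < s.card := Finset.card_pos.2 ⟨u, hu⟩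
    exact_mod_cast this
  refine ⟨?_, ?_, ?_⟩
  · intro i
    unfold gm
    split_ifs
    · exact le_rfl
    · exact add_nonneg (h0 i) (div_nonneg (h0 v) hcard.le)
    · simpa using h0 i
  · intro i hi
    by_cases hiv : i = v
    · simp [gm, hiv]
    · rw [gm_apply_not hi hiv]
      refine h1 i ?_
      simp only [Finset.mem_insert, Finset.mem_erase, not_or, not_and]
      exact ⟨hiv, fun _ => hi⟩
  · have h3 : ∑ i ∈ s, gm s v y i = ∑ i ∈ s, (y i + y v / s.card) :=
      Finset.sum_congr rfl (fun i hi => gm_apply_mem hv hi)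
    rw [h3, Finset.sum_add_distrib, Finset.sum_const, nsmul_eq_mul, mul_div_cancel₀ _ hcard.ne',
      ← Finset.add_sum_erase s y hu, hyu]
    linarith

theorem exists_min (s : Finset ℕ) (hs : s.Nonempty) (x : ℕ → ℝ) :
    ∃ u ∈ s, ∀ i ∈ s, x u ≤ x i := Finset.exists_min_image s x hs

theorem gm_surj {s : Finset ℕ} {v : ℕ} (hs : s.Nonempty) (hv : v ∉ s) {x : ℕ → ℝ}
    (hx : x ∈ Sx s) : ∃ u ∈ s, ∃ y ∈ Sx (insert v (s.erase u)), gm s v y = x := by
  obtain ⟨u, hu, hmin⟩ := exists_min s hs x
  obtain ⟨h0, h1, h2⟩ := hx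
  have hcard : (0 : ℝ) < s.card := by
    have : 0 < s.card := Finset.card_pos.2 ⟨u, hu⟩
    exact_mod_cast this
  have huv : u ≠ v := fun e => hv (e ▸ hu)
  have hvu : v ∉ s.erase u := fun h => hv (Finset.mem_of_mem_erase h)
  refine ⟨u, hu, fun i => if i = v then s.card * x u else if i ∈ s then x i - x u else 0, ?_, ?_⟩
  · refine ⟨?_, ?_, ?_⟩
    · intro i
      dsimp only
      split_ifs with h3 h4
      · exact mul_nonneg hcard.le (h0 u)
      · exact sub_nonneg.2 (hmin i h4)
      · exact le_rfl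
    · intro i hi
      simp only [Finset.mem_insert, Finset.mem_erase, not_or, not_and] at hi
      dsimp only
      rw [if_neg hi.1]
      by_cases hiu : i = u
      · subst hiu
        simp
      · rw [if_neg (hi.2 hiu)]
    · rw [Finset.sum_insert hvu]
      rw [if_pos rfl]
      have h3 : ∑ i ∈ s.erase u, (if i = v then s.card * x u else if i ∈ s then x i - x u else 0)
          = ∑ i ∈ s.erase u, (x i - x u) := by
        refine Finset.sum_congr rfl (fun i hi => ?_)
        have hi' := Finset.mem_of_mem_erase hi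
        have : i ≠ v := fun e => hv (e ▸ hi')
        rw [if_neg this, if_pos hi']
      rw [h3]
      have h4 : ∑ i ∈ s, (x i - x u) = 1 - s.card * x u := by
        rw [Finset.sum_sub_distrib, h2, Finset.sum_const, nsmul_eq_mul]
      have h5 := Finset.add_sum_erase s (fun i => x i - x u) hu
      simp only [sub_self, zero_add] at h5
      rw [h5, h4]
      ring
  · funext i
    unfold gm
    by_cases hiv : i = v
    · subst hiv
      simp [h1 i hv]
    · by_cases hi : i ∈ s
      · simp only [hiv, hi, if_true, if_false]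
        rw [mul_div_cancel_left₀ _ hcard.ne']
        ring
      · simp only [hiv, hi, if_false]
        rw [h1 i hi]
        ring

/-- Subdivision of one facet does not change the realization, up to homeomorphism. -/
theorem subdiv_homeo (F : Finset (Finset ℕ)) (s : Finset ℕ) (v : ℕ) (hs : s.Nonempty)
    (hv : v ∉ s) (hvF : ∀ t ∈ F, v ∉ t) (hsF : ∀ t ∈ F, ¬ s ⊆ t) :
    Nonempty (((⋃ t ∈ F, Sx t) ∪ (⋃ u ∈ s, Sx (insert v (s.erase u))) : Set (ℕ → ℝ)) ≃ₜ
      ((⋃ t ∈ F, Sx t) ∪ Sx s : Set (ℕ → ℝ))) := by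
  have hcard : (0 : ℝ) < s.card := by
    have : 0 < s.card := Finset.card_pos.2 hs
    exact_mod_cast this
  set A : Set (ℕ → ℝ) := (⋃ t ∈ F, Sx t) ∪ (⋃ u ∈ s, Sx (insert v (s.erase u))) with hA
  set B : Set (ℕ → ℝ) := (⋃ t ∈ F, Sx t) ∪ Sx s with hB
  have hmaps : ∀ y ∈ A, gm s v y ∈ B := by
    rintro y (hy | hy)
    · simp only [mem_iUnion, exists_prop] at hy
      obtain ⟨t, ht, hyt⟩ := hy
      rw [gm_eq_self (hyt.2.1 v (hvF t ht))]
      left
      simp only [mem_iUnion, exists_prop]
      exact ⟨t, ht, hyt⟩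
    · simp only [mem_iUnion, exists_prop] at hy
      obtain ⟨u, hu, hyu⟩ := hy
      exact Or.inr (gm_maps hv hu hyu)
  -- points of `A` with `y v = 0` have a coordinate in `s` which is zero
  have hzero : ∀ y ∈ A, ∃ u ∈ s, y u = 0 := by
    rintro y (hy | hy)
    · simp only [mem_iUnion, exists_prop] at hy
      obtain ⟨t, ht, hyt⟩ := hy
      have h1 := hsF t ht
      rw [Finset.not_subset] at h1
      obtain ⟨u, hu, hut⟩ := h1
      exact ⟨u, hu, hyt.2.1 u hut⟩
    · simp only [mem_iUnion, exists_prop] at hy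
      obtain ⟨u, hu, hyu⟩ := hy
      refine ⟨u, hu, hyu.2.1 u ?_⟩
      have huv : u ≠ v := fun e => hv (e ▸ hu)
      simp [huv]
  have hnonneg : ∀ y ∈ A, ∀ i, 0 ≤ y i := by
    rintro y (hy | hy)
    · simp only [mem_iUnion, exists_prop] at hy
      obtain ⟨t, ht, hyt⟩ := hy
      exact hyt.1
    · simp only [mem_iUnion, exists_prop] at hy
      obtain ⟨u, hu, hyu⟩ := hy
      exact hyu.1
  have hinj : ∀ y ∈ A, ∀ z ∈ A, gm s v y = gm s v z → y = z := by
    intro y hy z hz h
    obtain ⟨u, hu, hyu⟩ := hzero y hy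
    obtain ⟨w, hw, hzw⟩ := hzero z hz
    have e1 := congrFun h u
    rw [gm_apply_mem hv hu, gm_apply_mem hv hu, hyu, zero_add] at e1
    have e2 := congrFun h w
    rw [gm_apply_mem hv hw, gm_apply_mem hv hw, hzw, zero_add] at e2
    have p1 := hnonneg z hz u
    have p2 := hnonneg y hy w
    have e3 : y v / s.card = z v / s.card := by linarith
    have e4 : y v = z v := by
      rwa [div_left_inj' hcard.ne'] at e3
    funext i
    by_cases hiv : i = v
    · rw [hiv, e4]
    · by_cases hi : i ∈ s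
      · have := congrFun h i
        rw [gm_apply_mem hv hi, gm_apply_mem hv hi, e4] at this
        linarith
      · have := congrFun h i
        rwa [gm_apply_not hi hiv, gm_apply_not hi hiv] at this
  have hsurj : ∀ x ∈ B, ∃ y ∈ A, gm s v y = x := by
    rintro x (hx | hx)
    · refine ⟨x, Or.inl hx, ?_⟩
      simp only [mem_iUnion, exists_prop] at hx
      obtain ⟨t, ht, hxt⟩ := hx
      exact gm_eq_self (hxt.2.1 v (hvF t ht))
    · obtain ⟨u, hu, y, hy, e⟩ := gm_surj hs hv hx
      refine ⟨y, Or.inr ?_, e⟩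
      simp only [mem_iUnion, exists_prop]
      exact ⟨u, hu, hy⟩
  have hcA : IsCompact A := by
    refine IsCompact.union ?_ ?_
    · exact F.finite_toSet.isCompact_biUnion (fun t _ => isCompact_Sx t)
    · exact s.finite_toSet.isCompact_biUnion (fun u _ => isCompact_Sx _)
  have : CompactSpace A := isCompact_iff_compactSpace.1 hcA
  let φ : A → B := fun y => ⟨gm s v y.1, hmaps y.1 y.2⟩
  have hφc : Continuous φ :=
    Continuous.subtype_mk ((continuous_gm s v).comp continuous_subtype_val) _
  have hbij : Function.Bijective φ := by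
    constructor
    · intro y z h
      exact Subtype.ext (hinj y.1 y.2 z.1 z.2 (congrArg Subtype.val h))
    · intro x
      obtain ⟨y, hy, e⟩ := hsurj x.1 x.2
      exact ⟨⟨y, hy⟩, Subtype.ext e⟩
  exact ⟨Continuous.homeoOfEquivCompactToT2 (f := Equiv.ofBijective φ hbij) hφc⟩

end Pool.Agent.Q33.RS4
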