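import Pool.Agent.Q33.RS4.Vote
import Pool.Agent.Q33.RS4.Comp
import Pool.Agent.Q33.RS4.Find

/-!
The algorithm.
-/

set_option autoImplicit false

namespace Pool.Agent.Q33.RS4

open Set Topology Filter

/-- the test for the number `k` of subdivisions -/
def test (d : ℕ) (h : List (List ℕ) → ℕ → ℕ) (K : List (List ℕ)) (k : ℕ) : Bool :=
  decide (bound (nrm K) + k ≤ (nrm K).length + d * k) &&
    decide (h K (2 * (nrm K).length.factorial + 1) ≤ (nrm K).length + d * k)

theorem test_iff {d : ℕ} {h : List (List ℕ) → ℕ → ℕ} {K : List (List ℕ)} {k : ℕ} :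
    test d h K k = true ↔ bound (nrm K) + k ≤ (nrm K).length + d * k ∧
      h K (2 * (nrm K).length.factorial + 1) ≤ (nrm K).length + d * k := by
  simp [test]

theorem test_comp (d : ℕ) {h : List (List ℕ) → ℕ → ℕ} (hh : Computable₂ h) :
    Computable₂ (test d h) := by
  have hn : Primrec (fun p : List (List ℕ) × ℕ => (nrm p.1).length) :=
    Primrec.list_length.comp (nrm_prim.comp Primrec.fst)
  have hs : Primrec (fun p : List (List ℕ) × ℕ => (nrm p.1).length + d * p.2) :=
    Primrec.nat_add.comp hn (Primrec.nat_mul.comp (Primrec.const d) Primrec.snd)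
  have hA : Computable (fun p : List (List ℕ) × ℕ =>
      decide (bound (nrm p.1) + p.2 ≤ (nrm p.1).length + d * p.2)) :=
    (Primrec.nat_le.decide.comp (Primrec.nat_add.comp
      (bound_prim.comp (nrm_prim.comp Primrec.fst)) Primrec.snd) hs).to_comp
  have hF : Primrec (fun p : List (List ℕ) × ℕ => 2 * (nrm p.1).length.factorial + 1) :=
    Primrec.succ.comp (Primrec.nat_mul.comp (Primrec.const 2) (factorial_prim.comp hn))
  have hG : Computable (fun p : List (List ℕ) × ℕ =>
      h p.1 (2 * (nrm p.1).length.factorial + 1)) :=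
    hh.comp Computable.fst hF.to_comp
  have hB : Computable (fun p : List (List ℕ) × ℕ =>
      decide (h p.1 (2 * (nrm p.1).length.factorial + 1) ≤ (nrm p.1).length + d * p.2)) :=
    (Primrec.nat_le.decide.to_comp).comp hG hs.to_comp
  exact Primrec.and.to_comp.comp hA hB

theorem test_exists {d : ℕ} (hd : 2 ≤ d) (h : List (List ℕ) → ℕ → ℕ)
    (K : List (List ℕ)) : ∃ k, test d h K k = true := by
  refine ⟨bound (nrm K) + h K (2 * (nrm K).length.factorial + 1), test_iff.2 ⟨?_, ?_⟩⟩
  · nlinarith
  · nlinarith

/-- all subdivisions with the right number of steps -/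
def votes {d : ℕ} (hd : 2 ≤ d) (h : List (List ℕ) → ℕ → ℕ)
    (K : List (List ℕ)) : List (List (List ℕ)) :=
  hist (nrm K) (bound (nrm K)) (Nat.find (test_exists hd h K))

theorem votes_comp {d : ℕ} (hd : 2 ≤ d) {h : List (List ℕ) → ℕ → ℕ} (hh : Computable₂ h) :
    Computable (votes hd h) :=
  hist_prim.to_comp.comp (((nrm_prim.to_comp).pair (bound_prim.comp nrm_prim).to_comp).pair
    (find_comp (test_comp d hh) (test_exists hd h)))

/-- the answer by the majority -/
def answer {d : ℕ} (hd : 2 ≤ d) (h : List (List ℕ) → ℕ → ℕ)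
    (f : List (List ℕ) → Bool) (b : Bool) (K : List (List ℕ)) : Bool :=
  bif decide ((nrm K).length = 0) then b else
    decide ((votes hd h K).length < 2 * cnt f (votes hd h K) (votes hd h K).length)

theorem answer_comp {d : ℕ} (hd : 2 ≤ d) {h : List (List ℕ) → ℕ → ℕ} (hh : Computable₂ h)
    {f : List (List ℕ) → Bool} (hf : Computable f) (b : Bool) :
    Computable (answer hd h f b) := by
  have h1 : Computable (fun K : List (List ℕ) => decide ((nrm K).length = 0)) :=
    (Primrec.eq.decide.comp (Primrec.list_length.comp nrm_prim) (Primrec.const 0)).to_comp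
  have hv := votes_comp hd hh
  have h2 : Computable (fun K : List (List ℕ) => (votes hd h K).length) :=
    Primrec.list_length.to_comp.comp hv
  have h3 : Computable (fun K : List (List ℕ) =>
      2 * cnt f (votes hd h K) (votes hd h K).length) :=
    Primrec.nat_mul.to_comp.comp (Computable.const 2) ((cnt_comp hf).comp hv)
  exact Computable.cond h1 (Computable.const b) (Primrec.nat_lt.decide.to_comp.comp h2 h3)

/-- the arithmetic of the vote -/
theorem half {e F W H : ℕ} (hH : 0 < H) (hF : W ≤ F) (h : (2 * F + 1) * e ≤ W * H) :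
    2 * e < H := by
  by_contra hcon
  push Not at hcon
  have h1 : W * H ≤ F * H := Nat.mul_le_mul_right _ hF
  have h2 : F * H ≤ F * (2 * e) := Nat.mul_le_mul_left _ hcon
  have h3 : (2 * F + 1) * e = F * (2 * e) + e := by ring
  omega

/-- Few errors can be repaired. -/
theorem repair {d : ℕ} (hd : 2 ≤ d) (P : List (List ℕ) → Prop) (hP : Invariant P)
    (f : List (List ℕ) → Bool) (hf : Computable f) (h : List (List ℕ) → ℕ → ℕ)
    (hh : Computable₂ h)
    (hw : ∀ K, Mfd d K → ∀ q N, h K q ≤ N → q * (Wrong d P f K N).ncard ≤ weight d N) :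
    ∃ f' : List (List ℕ) → Bool, Computable f' ∧ ∀ K, Mfd d K → (f' K = true ↔ P K) := by
  classical
  refine ⟨answer hd h f (decide (P [])), answer_comp hd hh hf _, fun K hm => ?_⟩
  have hRz := Rz_nrm K
  unfold answer
  by_cases h0 : (nrm K).length = 0
  · have h1 : nrm K = [] := List.length_eq_zero_iff.1 h0
    have h2 : P K ↔ P [] := by
      refine hP K [] ⟨?_⟩
      rw [← hRz, h1]
      exact Homeomorph.refl _
    rw [h0, h2]
    simp
  · simp only [h0, decide_false, cond_false, decide_eq_true_eq]
    have hgood := good_nrm d K hm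
    obtain ⟨t1, t2⟩ := test_iff.1 (Nat.find_spec (test_exists hd h K))
    have hv : votes hd h K =
        hist (nrm K) (bound (nrm K)) (Nat.find (test_exists hd h K)) := rfl
    rw [hv]
    set k := Nat.find (test_exists hd h K) with hk
    obtain ⟨-, -, hlen⟩ := hist_spec (by omega : 1 ≤ d) hgood k
    have hPK : P K ↔ P (nrm K) := by
      refine hP K (nrm K) ⟨?_⟩
      rw [hRz]
      exact Homeomorph.refl _
    have hWe : Wrong d P f (nrm K) ((nrm K).length + d * k) =
        Wrong d P f K ((nrm K).length + d * k) := by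
      unfold Wrong
      rw [hRz]
    rw [cnt_length, hPK]
    refine vote (by omega) P hP f hgood t1 ?_
    -- the count
    have h3 := hw K hm _ _ t2
    have hn : 0 < (nrm K).length := Nat.pos_of_ne_zero h0
    rw [weight_add (by omega) hn k, ← hlen] at h3
    have h6 : 0 < (hist (nrm K) (bound (nrm K)) k).length := by
      rw [hlen]
      exact Finset.prod_pos (fun j _ => by omega)
    rw [hWe]
    exact half h6 (weight_le d _) h3

end Pool.Agent.Q33.RS4
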