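import Pool.Agent.Q33.RS4.Comb

/-!
The list of the maximal simplices of a complex.
-/

set_option autoImplicit false

namespace Pool.Agent.Q33.RS4

open Set Topology

/-- the nonempty maximal members of `K` -/
def maxl (K : List (List ℕ)) : List (List ℕ) :=
  K.filter (fun σ => σ ≠ [] ∧ ∀ τ ∈ K, (∀ a ∈ σ, a ∈ τ) → ∀ a ∈ τ, a ∈ σ)

/-- one member for each vertex set -/
def pick (K : List (List ℕ)) : List (List ℕ) :=
  K.foldr (fun σ acc => if (∃ τ ∈ acc, ∀ a ∈ σ, a ∈ τ) then acc else σ :: acc) []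

/-- the list of the maximal simplices -/
def nrm (K : List (List ℕ)) : List (List ℕ) := pick (maxl (K.map List.dedup))

theorem pick_cons (σ : List ℕ) (K : List (List ℕ)) :
    pick (σ :: K) = if (∃ τ ∈ pick K, ∀ a ∈ σ, a ∈ τ) then pick K else σ :: pick K := rfl

theorem pick_subset (K : List (List ℕ)) : ∀ σ ∈ pick K, σ ∈ K := by
  induction K with
  | nil =>
    intro σ hσ
    exact hσ
  | cons ρ K ih =>
    intro σ hσ
    rw [pick_cons] at hσ
    split_ifs at hσ with h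
    · exact List.mem_cons_of_mem _ (ih σ hσ)
    · rw [List.mem_cons] at hσ
      rcases hσ with rfl | hσ
      · exact List.mem_cons_self
      · exact List.mem_cons_of_mem _ (ih σ hσ)

theorem pick_cover (K : List (List ℕ)) : ∀ σ ∈ K, ∃ τ ∈ pick K, ∀ a ∈ σ, a ∈ τ := by
  induction K with
  | nil =>
    intro σ hσ
    simp at hσ
  | cons ρ K ih =>
    intro σ hσ
    rw [pick_cons]
    rw [List.mem_cons] at hσ
    split_ifs with h
    · rcases hσ with rfl | hσ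
      · exact h
      · exact ih σ hσ
    · rcases hσ with rfl | hσ
      · exact ⟨σ, List.mem_cons_self, fun a ha => ha⟩
      · obtain ⟨τ, hτ, h1⟩ := ih σ hσ
        exact ⟨τ, List.mem_cons_of_mem _ hτ, h1⟩

theorem pick_nodup (K : List (List ℕ)) : ((pick K).map List.toFinset).Nodup := by
  induction K with
  | nil => simp [pick]
  | cons ρ K ih =>
    rw [pick_cons]
    split_ifs with h
    · exact ih
    · rw [List.map_cons, List.nodup_cons]
      refine ⟨?_, ih⟩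
      intro hm
      rw [List.mem_map] at hm
      obtain ⟨τ, hτ, e⟩ := hm
      refine h ⟨τ, hτ, fun a ha => ?_⟩
      have : a ∈ τ.toFinset := by
        rw [e]
        simpa using ha
      simpa using this

theorem subset_iff (σ τ : List ℕ) : (∀ a ∈ σ, a ∈ τ) ↔ σ.toFinset ⊆ τ.toFinset := by
  simp [Finset.subset_iff]

theorem mem_maxl {K : List (List ℕ)} {σ : List ℕ} : σ ∈ maxl K ↔ σ ∈ K ∧ σ ≠ [] ∧
    ∀ τ ∈ K, σ.toFinset ⊆ τ.toFinset → τ.toFinset ⊆ σ.toFinset := by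
  simp only [maxl, List.mem_filter, decide_eq_true_eq, subset_iff]

theorem ddf (σ : List ℕ) : σ.dedup.toFinset = σ.toFinset := by
  ext a
  rw [List.mem_toFinset, List.mem_toFinset, List.mem_dedup]

theorem mem_nrm {K : List (List ℕ)} {σ : List ℕ} (h : σ ∈ nrm K) :
    (∃ ρ ∈ K, σ = ρ.dedup) ∧ σ ≠ [] ∧ ∀ τ ∈ K, σ.toFinset ⊆ τ.toFinset →
      τ.toFinset ⊆ σ.toFinset := by
  have h1 := pick_subset _ σ h
  rw [mem_maxl] at h1
  obtain ⟨h2, h3, h4⟩ := h1
  rw [List.mem_map] at h2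
  obtain ⟨ρ, hρ, rfl⟩ := h2
  refine ⟨⟨ρ, hρ, rfl⟩, h3, fun τ hτ hs => ?_⟩
  have h5 := h4 τ.dedup (List.mem_map.2 ⟨τ, hτ, rfl⟩) (by rw [ddf τ]; exact hs)
  rw [ddf] at h5
  exact h5

theorem nrm_cover {K : List (List ℕ)} {σ : List ℕ} (hσ : σ ∈ K) (hne : σ ≠ []) :
    ∃ τ ∈ nrm K, σ.toFinset ⊆ τ.toFinset := by
  -- a maximal member above `σ`
  have h1 : ∃ ρ ∈ K, σ.toFinset ⊆ ρ.toFinset ∧
      ∀ τ ∈ K, σ.toFinset ⊆ τ.toFinset → τ.toFinset.card ≤ ρ.toFinset.card := by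
    have hn : (K.toFinset.filter (fun ρ => σ.toFinset ⊆ ρ.toFinset)).Nonempty :=
      ⟨σ, by simp [hσ]⟩
    obtain ⟨ρ, hρ, hmax⟩ := Finset.exists_max_image _ (fun ρ : List ℕ => ρ.toFinset.card) hn
    rw [Finset.mem_filter, List.mem_toFinset] at hρ
    refine ⟨ρ, hρ.1, hρ.2, fun τ hτ hs => hmax τ ?_⟩
    rw [Finset.mem_filter, List.mem_toFinset]
    exact ⟨hτ, hs⟩
  obtain ⟨ρ, hρ, hsρ, hmax⟩ := h1
  have h2 : ρ.dedup ∈ maxl (K.map List.dedup) := by
    rw [mem_maxl]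
    refine ⟨List.mem_map.2 ⟨ρ, hρ, rfl⟩, ?_, ?_⟩
    · intro e
      rw [List.dedup_eq_nil] at e
      subst e
      refine hne ?_
      rw [← List.toFinset_eq_empty_iff]
      exact Finset.subset_empty.1 (by simpa using hsρ)
    · intro τ hτ hs
      rw [List.mem_map] at hτ
      obtain ⟨τ', hτ', rfl⟩ := hτ
      rw [ddf, ddf] at hs ⊢
      have h3 := hmax τ' hτ' (hsρ.trans hs)
      exact (Finset.eq_of_subset_of_card_le hs h3).ge
  obtain ⟨τ, hτ, h3⟩ := pick_cover _ _ h2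
  refine ⟨τ, hτ, hsρ.trans ?_⟩
  rw [subset_iff, ddf] at h3
  exact h3

theorem Rz_nrm (K : List (List ℕ)) : Rz (nrm K) = Rz K := by
  rw [Rz_eq, Rz_eq]
  ext x
  simp only [mem_iUnion, exists_prop, mem_cs]
  constructor
  · rintro ⟨t, ⟨σ, hσ, rfl⟩, hx⟩
    obtain ⟨⟨ρ, hρ, rfl⟩, -, -⟩ := mem_nrm hσ
    refine ⟨_, ⟨ρ, hρ, rfl⟩, ?_⟩
    rw [ddf] at hx
    exact hx
  · rintro ⟨t, ⟨σ, hσ, rfl⟩, hx⟩
    have hne : σ ≠ [] := by
      rintro rfl
      have := hx.2.2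
      simp at this
    obtain ⟨τ, hτ, hs⟩ := nrm_cover hσ hne
    refine ⟨_, ⟨τ, hτ, rfl⟩, hx.1, fun i hi => hx.2.1 i (fun h => hi (hs h)), ?_⟩
    rw [← hx.2.2]
    refine (Finset.sum_subset hs (fun i _ hi => ?_)).symm
    exact hx.2.1 i hi

/-- a bound for the vertices -/
def bound (K : List (List ℕ)) : ℕ := K.flatten.foldr (fun a b => max (a + 1) b) 0

theorem lt_bound {K : List (List ℕ)} {σ : List ℕ} (hσ : σ ∈ K) {v : ℕ} (hv : v ∈ σ) :
    v < bound K := by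
  have h1 : v ∈ K.flatten := List.mem_flatten.2 ⟨σ, hσ, hv⟩
  have h2 : ∀ l : List ℕ, v ∈ l → v < l.foldr (fun a b => max (a + 1) b) 0 := by
    intro l
    induction l with
    | nil =>
      intro h
      simp at h
    | cons a l ih =>
      intro h
      rw [List.foldr_cons]
      rw [List.mem_cons] at h
      rcases h with rfl | h
      · exact lt_of_lt_of_le (Nat.lt_succ_self _) (le_max_left _ _)
      · exact lt_of_lt_of_le (ih h) (le_max_right _ _)
  exact h2 _ h1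

/-- The normal form of a triangulation of a manifold is a list of different simplices with `d + 1`
vertices each. -/
theorem good_nrm (d : ℕ) (K : List (List ℕ))
    (hX : Nonempty (ChartedSpace (EuclideanSpace ℝ (Fin d)) (Rz K))) :
    Good d (nrm K).length (bound (nrm K)) (nrm K) := by
  have hX' : Nonempty (ChartedSpace (EuclideanSpace ℝ (Fin d))
      (⋃ t ∈ cs (nrm K), Sx t : Set (ℕ → ℝ))) := by
    rw [← Rz_eq, Rz_nrm]
    exact hX
  refine ⟨rfl, ?_, pick_nodup _⟩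
  intro σ hσ
  obtain ⟨⟨ρ, hρ, e⟩, hne, hmax⟩ := mem_nrm hσ
  have hnd : σ.Nodup := e ▸ List.nodup_dedup ρ
  refine ⟨hnd, ?_, fun v hv => lt_bound hσ hv⟩
  rw [← List.toFinset_card_of_nodup hnd]
  refine card_of_maximal (cs (nrm K)) σ.toFinset (mem_cs.2 ⟨σ, hσ, rfl⟩) ?_ ?_ d hX'
  · rw [List.toFinset_nonempty_iff]
    exact hne
  · intro t ht hs
    rw [mem_cs] at ht
    obtain ⟨τ, hτ, rfl⟩ := ht
    obtain ⟨⟨ρ', hρ', e'⟩, -, -⟩ := mem_nrm hτ
    have h1 : τ.toFinset = ρ'.toFinset := by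
      rw [e', ddf]
    rw [h1] at hs ⊢
    exact Finset.Subset.antisymm (hmax ρ' hρ' hs) hs

end Pool.Agent.Q33.RS4
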