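import Pool.Agent.Q33.RS4.Main

/-!
Algorithms which need not stop on all inputs.
-/

set_option autoImplicit false

namespace Pool.Agent.Q33.RS4

open Set Topology Filter

/-- The set of the labelled triangulations with `N` facets and vertices less than `N`, of spaces
homeomorphic to the realization of `K`, for which `φ` fails: sets `C` of `N` sets of `d + 1`
vertices which span a complex homeomorphic to the realization of `K`, such that for some list `L`
of the facets (in some order, each one a list of its vertices in some order) `φ` does not stop on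
`L`, or its value does not decide if `L` has the property `P`. -/
def Fails (d : ℕ) (P : List (List ℕ) → Prop) (φ : List (List ℕ) →. Bool) (K : List (List ℕ))
    (N : ℕ) : Set (Finset (Finset ℕ)) :=
  {C | ∃ L : List (List ℕ), Good d N N L ∧ C = (L.map List.toFinset).toFinset ∧
    Nonempty (Rz L ≃ₜ Rz K) ∧ ¬ ∃ b ∈ φ L, (b = true ↔ P L)}

theorem fails_total (d : ℕ) (P : List (List ℕ) → Prop) (f : List (List ℕ) → Bool)
    (K : List (List ℕ)) (N : ℕ) :
    Fails d P (f : List (List ℕ) →. Bool) K N = Wrong d P f K N := by
  ext C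
  constructor
  · rintro ⟨L, h1, h2, h3, h4⟩
    exact ⟨L, h1, h2, h3, fun h => h4 ⟨f L, Part.mem_some _, h⟩⟩
  · rintro ⟨L, h1, h2, h3, h4⟩
    refine ⟨L, h1, h2, h3, ?_⟩
    rintro ⟨b, hb, h⟩
    have e : b = f L := Part.mem_some_iff.1 hb
    subst e
    exact h4 h

theorem fails_finite (d : ℕ) (P : List (List ℕ) → Prop) (φ : List (List ℕ) →. Bool)
    (K : List (List ℕ)) (N : ℕ) : (Fails d P φ K N).Finite := by
  refine ((Finset.range N).powerset.powerset.finite_toSet).subset ?_
  rintro C ⟨L, hK, rfl, -, -⟩
  rw [Finset.mem_coe, Finset.mem_powerset]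
  intro t ht
  rw [List.mem_toFinset, List.mem_map] at ht
  obtain ⟨σ, hσ, rfl⟩ := ht
  rw [Finset.mem_powerset]
  intro v hv
  rw [Finset.mem_range]
  exact (hK.simp σ hσ).2.2 v (by simpa using hv)

/-- the value of the program `c` after `s` steps -/
def ev (c : Nat.Partrec.Code) (s : ℕ) (K : List (List ℕ)) : Option Bool :=
  (Nat.Partrec.Code.evaln s c (Encodable.encode K)).bind
    (fun m => (Encodable.decode m : Option Bool))

theorem ev_prim (c : Nat.Partrec.Code) : Primrec₂ (ev c) :=
  Primrec.option_bind (Nat.Partrec.Code.primrec_evaln.comp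
    ((Primrec.fst.pair (Primrec.const c)).pair (Primrec.encode.comp Primrec.snd)))
    (Primrec.decode.comp Primrec.snd).to₂

theorem ev_mono {c : Nat.Partrec.Code} {s t : ℕ} (h : s ≤ t) {K : List (List ℕ)} {b : Bool}
    (hb : ev c s K = some b) : ev c t K = some b := by
  unfold ev at hb ⊢
  rw [Option.bind_eq_some_iff] at hb ⊢
  obtain ⟨m, hm, e⟩ := hb
  exact ⟨m, Nat.Partrec.Code.evaln_mono h hm, e⟩

theorem exists_ev {φ : List (List ℕ) →. Bool} (hφ : Partrec φ) :
    ∃ c : Nat.Partrec.Code, ∀ K b, b ∈ φ K ↔ ∃ s, ev c s K = some b := by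
  obtain ⟨c, hc⟩ := Nat.Partrec.Code.exists_code.1 hφ
  refine ⟨c, fun K b => ?_⟩
  have h1 : Nat.Partrec.Code.eval c (Encodable.encode K) = (φ K).map Encodable.encode := by
    rw [hc]
    simp
  constructor
  · intro hb
    have h2 : Encodable.encode b ∈ Nat.Partrec.Code.eval c (Encodable.encode K) := by
      rw [h1]
      exact Part.mem_map _ hb
    obtain ⟨s, hs⟩ := Nat.Partrec.Code.evaln_complete.1 h2
    refine ⟨s, ?_⟩
    unfold ev
    rw [Option.bind_eq_some_iff]
    exact ⟨_, hs, Encodable.encodek b⟩
  · rintro ⟨s, hs⟩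
    unfold ev at hs
    rw [Option.bind_eq_some_iff] at hs
    obtain ⟨m, hm, e⟩ := hs
    have h2 := Nat.Partrec.Code.evaln_sound hm
    rw [h1, Part.mem_map_iff] at h2
    obtain ⟨b', hb', e'⟩ := h2
    rw [← e', Encodable.encodek] at e
    rw [← Option.some.inj e]
    exact hb'

/-- the number of votes for `b` after `s` steps -/
def nv (c : Nat.Partrec.Code) (b : Bool) (s : ℕ) (H : List (List (List ℕ))) : ℕ :=
  (H.filter (fun L => ev c s L = some b)).length

theorem nv_prim (c : Nat.Partrec.Code) (b : Bool) :
    Primrec (fun p : ℕ × List (List (List ℕ)) => nv c b p.1 p.2) := by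
  have h1 : PrimrecRel (fun (L : List (List ℕ)) (s : ℕ) => ev c s L = some b) :=
    Primrec.eq.comp ((ev_prim c).comp Primrec.snd Primrec.fst) (Primrec.const (some b))
  exact (Primrec.list_length.comp
    ((PrimrecRel.listFilter h1).comp Primrec.snd Primrec.fst)).of_eq (fun p => by
      simp only [nv])

/-- the decision after `s` steps -/
def dec (c : Nat.Partrec.Code) (s : ℕ) (H : List (List (List ℕ))) : Option Bool :=
  if H.length < 2 * nv c true s H then some true else
    if H.length < 2 * nv c false s H then some false else none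

theorem dec_prim (c : Nat.Partrec.Code) :
    Primrec (fun p : ℕ × List (List (List ℕ)) => dec c p.1 p.2) := by
  have h : ∀ b, PrimrecPred (fun p : ℕ × List (List (List ℕ)) =>
      p.2.length < 2 * nv c b p.1 p.2) := fun b =>
    Primrec.nat_lt.comp (Primrec.list_length.comp Primrec.snd)
      (Primrec.nat_mul.comp (Primrec.const 2) (nv_prim c b))
  exact Primrec.ite (h true) (Primrec.const (some true))
    (Primrec.ite (h false) (Primrec.const (some false)) (Primrec.const none))

theorem dec_some {c : Nat.Partrec.Code} {s : ℕ} {H : List (List (List ℕ))} {b : Bool}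
    (h : dec c s H = some b) : H.length < 2 * nv c b s H := by
  unfold dec at h
  split_ifs at h with h1 h2
  · cases h
    exact h1
  · cases h
    exact h2

theorem dec_isSome {c : Nat.Partrec.Code} {s : ℕ} {H : List (List (List ℕ))} (b : Bool)
    (h : H.length < 2 * nv c b s H) : ∃ b', dec c s H = some b' := by
  unfold dec
  split_ifs with h1 h2
  · exact ⟨_, rfl⟩
  · exact ⟨_, rfl⟩
  · cases b
    · exact absurd h h2
    · exact absurd h h1

/-- the algorithm -/
def search {d : ℕ} (hd : 2 ≤ d) (h : List (List ℕ) → ℕ → ℕ)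
    (c : Nat.Partrec.Code) (b : Bool) (K : List (List ℕ)) : Part Bool :=
  Nat.rfindOpt (fun s => bif decide ((nrm K).length = 0) then some b else
    dec c s (votes hd h K))

theorem search_partrec {d : ℕ} (hd : 2 ≤ d) {h : List (List ℕ) → ℕ → ℕ}
    (hh : Computable₂ h) (c : Nat.Partrec.Code) (b : Bool) :
    Partrec (search hd h c b) := by
  have h1 : Computable (fun p : List (List ℕ) × ℕ => decide ((nrm p.1).length = 0)) :=
    (Primrec.eq.decide.comp (Primrec.list_length.comp (nrm_prim.comp Primrec.fst))
      (Primrec.const 0)).to_comp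
  have h2 : Computable (fun p : List (List ℕ) × ℕ => dec c p.2 (votes hd h p.1)) :=
    (dec_prim c).to_comp.comp (Computable.snd.pair
      ((votes_comp hd hh).comp Computable.fst))
  exact Partrec.rfindOpt (Computable.cond h1 (Computable.const (some b)) h2).to₂

/-- Few failures can be repaired. -/
theorem repair_par {d : ℕ} (hd : 2 ≤ d) (P : List (List ℕ) → Prop) (hP : Invariant P)
    (φ : List (List ℕ) →. Bool) (hφ : Partrec φ) (h : List (List ℕ) → ℕ → ℕ)
    (hh : Computable₂ h)
    (hw : ∀ K, Mfd d K → ∀ q N, h K q ≤ N → q * (Fails d P φ K N).ncard ≤ weight d N) :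
    ∃ φ' : List (List ℕ) →. Bool, Partrec φ' ∧ ∀ K, Mfd d K →
      ∃ b ∈ φ' K, (b = true ↔ P K) := by
  classical
  obtain ⟨c, hc⟩ := exists_ev hφ
  refine ⟨search hd h c (decide (P [])), search_partrec hd hh c _, fun K hm => ?_⟩
  have hRz := Rz_nrm K
  unfold search
  by_cases h0 : (nrm K).length = 0
  · have h1 : nrm K = [] := List.length_eq_zero_iff.1 h0
    have h2 : P K ↔ P [] := by
      refine hP K [] ⟨?_⟩
      rw [← hRz, h1]
      exact Homeomorph.refl _
    refine ⟨decide (P []), ?_, ?_⟩
    · refine (Nat.rfindOpt_mono ?_).2 ⟨0, ?_⟩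
      · intro a m n _ ha
        simpa [h0] using ha
      · simp [h0]
    · rw [h2]
      simp
  · simp only [h0, decide_false, cond_false]
    have hgood := good_nrm d K hm
    obtain ⟨t1, t2⟩ := test_iff.1 (Nat.find_spec (test_exists hd h K))
    have hv : votes hd h K =
        hist (nrm K) (bound (nrm K)) (Nat.find (test_exists hd h K)) := rfl
    rw [hv]
    set k := Nat.find (test_exists hd h K) with hk
    obtain ⟨h1, h2, hlen⟩ := hist_spec (by omega : 1 ≤ d) hgood k
    set H := hist (nrm K) (bound (nrm K)) k with hH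
    have h3 := hw K hm _ _ t2
    have hn : 0 < (nrm K).length := Nat.pos_of_ne_zero h0
    rw [weight_add (by omega) hn k, ← hlen] at h3
    have h6 : 0 < H.length := by
      rw [hlen]
      exact Finset.prod_pos (fun j _ => by omega)
    -- less than half of the votes are wrong
    have hfew : 2 * (Fails d P φ K ((nrm K).length + d * k)).ncard < H.length :=
      half h6 (weight_le d _) h3
    have hhom : ∀ L ∈ H, Nonempty (Rz L ≃ₜ Rz K) := by
      intro L hL
      rw [← hRz]
      exact (h1 L hL).2
    have hgoodL : ∀ L ∈ H, Good d ((nrm K).length + d * k) ((nrm K).length + d * k) L := by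
      intro L hL
      obtain ⟨a, b, c'⟩ := (h1 L hL).1
      refine ⟨a, fun σ hσ => ?_, c'⟩
      obtain ⟨b1, b2, b3⟩ := b σ hσ
      exact ⟨b1, b2, fun v hv => by have := b3 v hv; omega⟩
    have key : ∀ (p : List (List ℕ) → Bool), (∀ L ∈ H, p L = true →
        ¬ ∃ b ∈ φ L, (b = true ↔ P L)) → 2 * (H.filter p).length < H.length := by
      intro p hp
      have a3 : ((H.filter p).map cs).Nodup := (List.Sublist.map _ List.filter_sublist).nodup h2
      have a4 : (((H.filter p).map cs).toFinset : Set (Finset (Finset ℕ))) ⊆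
          Fails d P φ K ((nrm K).length + d * k) := by
        intro C hC
        rw [Finset.mem_coe, List.mem_toFinset, List.mem_map] at hC
        obtain ⟨L, hL, rfl⟩ := hC
        rw [List.mem_filter] at hL
        exact ⟨L, hgoodL L hL.1, rfl, hhom L hL.1, hp L hL.1 hL.2⟩
      have a5 := Set.ncard_le_ncard a4 (fails_finite d P φ K _)
      rw [Set.ncard_coe_finset, List.toFinset_card_of_nodup a3, List.length_map] at a5
      omega
    have hiff : ∀ L ∈ H, (P L ↔ P K) := fun L hL => hP L K (hhom L hL)
    obtain ⟨bb, hbb⟩ : ∃ bb : Bool, (bb = true ↔ P K) :=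
      ⟨decide (P K), by simp⟩
    refine ⟨bb, ?_, hbb⟩
    -- the search stops
    have hstop : ∃ s, ∀ L ∈ H, bb ∈ φ L → ev c s L = some bb := by
      have : ∀ l : List (List (List ℕ)), ∃ s, ∀ L ∈ l, bb ∈ φ L → ev c s L = some bb := by
        intro l
        induction l with
        | nil => exact ⟨0, by simp⟩
        | cons L l ih =>
          obtain ⟨s, hs⟩ := ih
          by_cases hL : bb ∈ φ L
          · obtain ⟨s', hs'⟩ := (hc L bb).1 hL
            refine ⟨max s s', fun L' hL' hb' => ?_⟩
            rw [List.mem_cons] at hL'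
            rcases hL' with rfl | hL'
            · exact ev_mono (le_max_right _ _) hs'
            · exact ev_mono (le_max_left _ _) (hs L' hL' hb')
          · refine ⟨s, fun L' hL' hb' => ?_⟩
            rw [List.mem_cons] at hL'
            rcases hL' with rfl | hL'
            · exact absurd hb' hL
            · exact hs L' hL' hb'
      exact this H
    obtain ⟨s, hs⟩ := hstop
    have hmaj : H.length < 2 * nv c bb s H := by
      have e1 := List.length_eq_length_filter_add (l := H) (fun L => decide (ev c s L = some bb))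
      have e2 := key (fun L => !decide (ev c s L = some bb)) (by
        intro L hL hp
        rintro ⟨b, hb, hb'⟩
        rw [hiff L hL, ← hbb] at hb'
        have e3 : b = bb := by
          cases b <;> cases bb <;> simp_all
        subst e3
        have e4 := hs L hL hb
        simp [e4] at hp)
      unfold nv
      omega
    obtain ⟨b', hb'⟩ := dec_isSome bb hmaj
    have hdom : (Nat.rfindOpt (fun s => dec c s H)).Dom := Nat.rfindOpt_dom.2 ⟨s, b', hb'⟩
    obtain ⟨s', hs'⟩ := Nat.rfindOpt_spec (Part.get_mem hdom)
    have hval : (Nat.rfindOpt (fun s => dec c s H)).get hdom = bb := by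
      by_contra hne
      have e5 := dec_some hs'
      have e6 := key (fun L => decide (ev c s' L =
          some ((Nat.rfindOpt (fun s => dec c s H)).get hdom))) (by
        intro L hL hp
        rw [decide_eq_true_eq] at hp
        have e7 := (hc L _).2 ⟨s', hp⟩
        rintro ⟨b, hb, hbL⟩
        rw [hiff L hL, ← hbb] at hbL
        have e8 : b = bb := by
          cases b <;> cases bb <;> simp_all
        exact hne ((Part.mem_unique e7 hb).trans e8))
      unfold nv at e5
      omega
    rw [← hval]
    exact Part.get_mem hdom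

end Pool.Agent.Q33.RS4
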