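import Pool.Agent.Q33.RS4.Norm

/-!
Errors, and the vote over all iterated subdivisions.
-/

set_option autoImplicit false

namespace Pool.Agent.Q33.RS4

open Set Topology

/-- The realization of the complex spanned by `K` is a closed topological manifold of dimension
`d`. -/
def Mfd (d : ℕ) (K : List (List ℕ)) : Prop :=
  Nonempty (ChartedSpace (EuclideanSpace ℝ (Fin d)) (Rz K))

/-- `P` is a property of the topological space which is the realization. -/
def Invariant (P : List (List ℕ) → Prop) : Prop :=
  ∀ K L : List (List ℕ), Nonempty (Rz K ≃ₜ Rz L) → (P K ↔ P L)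

/-- The set of the labelled triangulations with `N` facets and vertices less than `N`, of spaces
homeomorphic to the realization of `K`, on which `f` is wrong: sets `C` of `N` sets of `d + 1`
vertices which span a complex homeomorphic to the realization of `K`, such that for some list `L`
of the facets (in some order, each one a list of its vertices in some order) the value of `f` does
not decide if `L` has the property `P`. -/
def Wrong (d : ℕ) (P : List (List ℕ) → Prop) (f : List (List ℕ) → Bool) (K : List (List ℕ))
    (N : ℕ) : Set (Finset (Finset ℕ)) :=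
  {C | ∃ L : List (List ℕ), Good d N N L ∧ C = (L.map List.toFinset).toFinset ∧
    Nonempty (Rz L ≃ₜ Rz K) ∧ ¬ (f L = true ↔ P L)}

/-- the product of the positive integers `m < N` with `m ≡ N` modulo `d` -/
def weight (d N : ℕ) : ℕ :=
  ∏ m ∈ (Finset.range N).filter (fun m => 0 < m ∧ m % d = N % d), m

theorem weight_step {d N : ℕ} (hd : 0 < d) (hN : 0 < N) : weight d (N + d) = N * weight d N := by
  have h : (Finset.range (N + d)).filter (fun m => 0 < m ∧ m % d = (N + d) % d) =
      insert N ((Finset.range N).filter (fun m => 0 < m ∧ m % d = N % d)) := by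
    ext m
    simp only [Finset.mem_filter, Finset.mem_range, Finset.mem_insert, Nat.add_mod_right]
    constructor
    · rintro ⟨h1, h2, h3⟩
      by_cases hm : m < N
      · exact Or.inr ⟨hm, h2, h3⟩
      · left
        have h4 : N ≤ m := by omega
        have h5 : d ∣ m - N := (Nat.modEq_iff_dvd' h4).1 h3.symm
        have h6 := Nat.eq_zero_of_dvd_of_lt h5 (by omega)
        omega
    · rintro (rfl | ⟨h1, h2, h3⟩)
      · exact ⟨by omega, hN, rfl⟩
      · exact ⟨by omega, h2, h3⟩
  rw [weight, h, Finset.prod_insert (by simp), weight]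

theorem weight_add {d n : ℕ} (hd : 0 < d) (hn : 0 < n) (k : ℕ) :
    weight d (n + d * k) = weight d n * ∏ j ∈ Finset.range k, (n + d * j) := by
  induction k with
  | zero => simp
  | succ k ih =>
    rw [Finset.prod_range_succ, ← mul_assoc, ← ih]
    have e : n + d * (k + 1) = (n + d * k) + d := by ring
    rw [e, weight_step hd (by omega)]
    ring

theorem prod_filter_le (p : ℕ → Prop) [DecidablePred p] (n : ℕ) :
    ∏ m ∈ (Finset.range n).filter (fun m => 0 < m ∧ p m), m ≤ n.factorial := by
  induction n with
  | zero => simp
  | succ n ih =>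
    rw [Finset.range_add_one, Finset.filter_insert, Nat.factorial_succ]
    split_ifs with h
    · rw [Finset.prod_insert (by simp)]
      exact Nat.mul_le_mul (by omega) ih
    · calc _ ≤ n.factorial := ih
        _ ≤ (n + 1) * n.factorial := Nat.le_mul_of_pos_left _ (by omega)

theorem weight_le (d n : ℕ) : weight d n ≤ n.factorial := prod_filter_le _ n

theorem weight_pos (d n : ℕ) : 0 < weight d n := by
  refine Finset.prod_pos (fun m hm => ?_)
  rw [Finset.mem_filter] at hm
  exact hm.2.1

/-- Manifolds and homeomorphisms. -/
theorem Mfd.of_homeo {d : ℕ} {K L : List (List ℕ)} (h : Mfd d K) (e : Rz L ≃ₜ Rz K) :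
    Mfd d L := by
  obtain ⟨c⟩ := h
  exact ⟨{
    atlas := {g | ∃ g' ∈ c.atlas, g = e.toOpenPartialHomeomorph.trans g'}
    chartAt := fun x => e.toOpenPartialHomeomorph.trans (c.chartAt (e x))
    mem_chart_source := fun x => by
      simp
    chart_mem_atlas := fun x => ⟨_, c.chart_mem_atlas _, rfl⟩ }⟩

theorem wrong_finite (d : ℕ) (P : List (List ℕ) → Prop) (f : List (List ℕ) → Bool)
    (K : List (List ℕ)) (N : ℕ) : (Wrong d P f K N).Finite := by
  refine ((Finset.range N).powerset.powerset.finite_toSet).subset ?_
  rintro C ⟨L, hK, rfl, -, -⟩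
  rw [Finset.mem_coe, Finset.mem_powerset]
  intro t ht
  rw [List.mem_toFinset, List.mem_map] at ht
  obtain ⟨σ, hσ, rfl⟩ := ht
  rw [Finset.mem_powerset]
  intro v hv
  rw [Finset.mem_range]
  exact (hK.simp σ hσ).2.2 v (by simpa using hv)

/-- The majority is right if there are few errors. -/
theorem vote {d n M k : ℕ} (hd : 1 ≤ d) (P : List (List ℕ) → Prop) (hP : Invariant P)
    (f : List (List ℕ) → Bool) {K : List (List ℕ)} (hK : Good d n M K)
    (hM : M + k ≤ n + d * k)
    (hw : 2 * (Wrong d P f K (n + d * k)).ncard < (hist K M k).length) :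
    (hist K M k).length < 2 * ((hist K M k).filter (fun L => f L = true)).length ↔
      P K := by
  classical
  obtain ⟨h1, h2, -⟩ := hist_spec hd hK k
  set H := hist K M k with hH
  have hiff : ∀ L ∈ H, (P L ↔ P K) := fun L hL => hP L K (h1 L hL).2
  have hgood : ∀ L ∈ H, Good d (n + d * k) (n + d * k) L := by
    intro L hL
    obtain ⟨a, b, c⟩ := (h1 L hL).1
    refine ⟨a, fun σ hσ => ?_, c⟩
    obtain ⟨b1, b2, b3⟩ := b σ hσ
    exact ⟨b1, b2, fun v hv => by have := b3 v hv; omega⟩
  -- the wrong members of `H`
  have key : ∀ (p : List (List ℕ) → Bool), (∀ L ∈ H, p L = true →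
      ¬ (f L = true ↔ P L)) →
      (H.filter p).length ≤ (Wrong d P f K (n + d * k)).ncard := by
    intro p hp
    have h3 : ((H.filter p).map cs).Nodup := (List.Sublist.map _ List.filter_sublist).nodup h2
    have h4 : (((H.filter p).map cs).toFinset : Set (Finset (Finset ℕ))) ⊆
        Wrong d P f K (n + d * k) := by
      intro C hC
      rw [Finset.mem_coe, List.mem_toFinset, List.mem_map] at hC
      obtain ⟨L, hL, rfl⟩ := hC
      rw [List.mem_filter] at hL
      exact ⟨L, hgood L hL.1, rfl, (h1 L hL.1).2, hp L hL.1 hL.2⟩
    have h5 := Set.ncard_le_ncard h4 (wrong_finite d P f K _)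
    rw [Set.ncard_coe_finset, List.toFinset_card_of_nodup h3, List.length_map] at h5
    exact h5
  have hlen := List.length_eq_length_filter_add (l := H) (fun L => decide (f L = true))
  by_cases hb : P K
  · have h6 := key (fun L => !decide (f L = true)) (by
      intro L hL hp
      rw [hiff L hL]
      simp only [Bool.not_eq_true', decide_eq_false_iff_not] at hp
      tauto)
    refine ⟨fun _ => hb, fun _ => ?_⟩
    omega
  · have h6 := key (fun L => decide (f L = true)) (by
      intro L hL hp
      rw [hiff L hL]
      simp only [decide_eq_true_eq] at hp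
      tauto)
    refine ⟨fun h => ?_, fun h => absurd h hb⟩
    omega

end Pool.Agent.Q33.RS4
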